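import Pool.Agent.Run7.h707.TC.Fin

/-!
# The elements modulo cubes
-/

set_option autoImplicit false
set_option linter.unusedVariables false
set_option linter.unusedSectionVars false

open scoped Classical

namespace Run7.h460.JL

open Finset NumberField
open Pool.Agent.Y692.QS (Ei w nr)
open Pool.Agent.Y715.T.RecG (Pq)
open Pool.Agent.Y703.CT (Dt pD)
open Pool.Agent.N883.FF (nq ClP w_pow_inj isUnit_w pB cf_pB)
open Run7.h707.TC (Tt mem_Tt dlt elw UC dlt_eq tt_pq Uu ee FamU FamO famO_iff dt_U famU_ex)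

/-! ### in `ℤ[ω]` -/

theorem famU_ne {x : Ei} (h : FamU x) : x ≠ 0 := by
  rintro rfl
  have h1 := h.1 0 (dvd_zero _)
  exact not_isUnit_zero h1

/-- a monomial in cube-free elements is a cube-free element times a cube -/
theorem famU_dlt {m : ℕ} (n : Fin m → ℕ) {a : Fin m → Ei} (ha : ∀ k, FamU (a k)) :
    ∃ z c : Ei, FamU z ∧ c ≠ 0 ∧ dlt n a = z * c ^ 3 := by
  choose i M S hS hM haa using fun k => famU_ex (ha k)
  have hae : a = fun k => elw (i k) (M k) (S k) := funext haa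
  obtain ⟨c, hc, hcp, hd⟩ := dlt_eq n i hM hS
  have hD := dt_U (tt_pq hS) (ee M (fun k => (n k : ZMod 3)) S)
  refine ⟨_, c, ⟨(cf_pB (i := ∑ k, (n k : ZMod 3) * i k) hD).2, ∑ k, (n k : ZMod 3) * i k, ?_⟩, hc,
    by rw [hae]; exact hd⟩
  have h1 := Pool.Agent.R419.CE.three_pD hD
  have h2 : pB (fun π : ↥(Uu (Tt S) (ee M (fun k => (n k : ZMod 3)) S)) => (π : Ei))
      (fun π => ee M (fun k => (n k : ZMod 3)) S π) (∑ k, (n k : ZMod 3) * i k) -
      w ^ (∑ k, (n k : ZMod 3) * i k).val = w ^ (∑ k, (n k : ZMod 3) * i k).val *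
      (pD (fun π : ↥(Uu (Tt S) (ee M (fun k => (n k : ZMod 3)) S)) => (π : Ei))
      (fun π => ee M (fun k => (n k : ZMod 3)) S π) - 1) := by
    unfold Pool.Agent.N883.FF.pB
    ring
  rw [h2]
  exact Dvd.dvd.mul_left h1 _

theorem famU_mul {x y : Ei} (hx : FamU x) (hy : FamU y) :
    ∃ z c : Ei, FamU z ∧ c ≠ 0 ∧ x * y = z * c ^ 3 := by
  obtain ⟨z, c, h1, h2, h3⟩ := famU_dlt (fun _ : Fin 2 => 1) (a := ![x, y]) (by
    intro k
    fin_cases k
    · exact hx
    · exact hy)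
  refine ⟨z, c, h1, h2, ?_⟩
  rw [← h3]
  unfold Run7.h707.TC.dlt
  rw [Fin.prod_univ_two, pow_one, pow_one]
  rfl

/-- a cube-free element is determined by its class modulo cubes -/
theorem famU_unique {x y a b : Ei} (hx : FamU x) (hy : FamU y) (ha : a ≠ 0) (hb : b ≠ 0)
    (h : x * a ^ 3 = y * b ^ 3) : x = y := by
  obtain ⟨a', b', c', hr, rfl, rfl⟩ := UniqueFactorizationMonoid.exists_reduced_factors a ha b
  have hc0 : c' ≠ 0 := left_ne_zero_of_mul ha
  have h1 : x * a' ^ 3 = y * b' ^ 3 := by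
    have h2 : c' ^ 3 * (x * a' ^ 3) = c' ^ 3 * (y * b' ^ 3) := by
      linear_combination h
    exact mul_left_cancel₀ (pow_ne_zero 3 hc0) h2
  have hr3 : IsRelPrime (a' ^ 3) (b' ^ 3) := hr.pow
  have h2 : a' ^ 3 ∣ y := hr3.dvd_of_dvd_mul_right (by rw [← h1]; exact dvd_mul_left _ _)
  have h3 : b' ^ 3 ∣ x := hr3.symm.dvd_of_dvd_mul_right (by rw [h1]; exact dvd_mul_left _ _)
  have hua : IsUnit a' := hy.1 _ h2
  have hub : IsUnit b' := hx.1 _ h3
  have hcub : ∀ u : Ei, IsUnit u → u ^ 3 = 1 ∨ u ^ 3 = -1 := by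
    intro u hu
    obtain ⟨l, hl⟩ := Pool.Agent.Y715.T.RecC.unit_form hu
    have hw3 : ∀ l : ZMod 3, ((w : Ei) ^ l.val) ^ 3 = 1 := by decide
    rcases hl with hl | hl
    · left
      rw [hl, hw3]
    · right
      rw [hl, neg_pow, hw3]
      norm_num
  have hneg : x ≠ -y := by
    intro he
    obtain ⟨i, s, hs⟩ := hx.2
    obtain ⟨k, t, ht⟩ := hy.2
    have h4 : (3 : Ei) ∣ w ^ i.val + w ^ k.val := by
      refine ⟨-(s + t), ?_⟩
      linear_combination he - hs - ht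
    have h5 : ∀ i k : ZMod 3, ¬ (9 : ℤ) ∣ nr (w ^ i.val + w ^ k.val) := by decide
    obtain ⟨v, hv⟩ := h4
    refine h5 i k ⟨nr v, ?_⟩
    rw [hv, Pool.Agent.Y692.QS.nr_mul]
    have : nr (3 : Ei) = 9 := by decide
    rw [this]
  rcases hcub a' hua with h4 | h4 <;> rcases hcub b' hub with h5 | h5 <;> rw [h4, h5] at h1
  · rw [mul_one, mul_one] at h1
    exact h1
  · exact absurd (by linear_combination h1) hneg
  · exact absurd (by linear_combination -h1) hneg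
  · linear_combination -h1

/-! ### over `𝓞 K` -/

section
variable {K : Type} [Field K] [NumberField K]

/-- the nonzero elements of the field modulo cubes -/
abbrev VV (K : Type) [Field K] : Type := Additive (Kˣ ⧸ (powMonoidHom 3 : Kˣ →* Kˣ).range)

/-- the class of an element -/
noncomputable def UU (x : 𝓞 K) : VV K :=
  if h : (x : K) ≠ 0 then Additive.ofMul (QuotientGroup.mk (Units.mk0 (x : K) h)) else 0

theorem coe_ne {x : 𝓞 K} (h : x ≠ 0) : (x : K) ≠ 0 := fun h' => h (RingOfIntegers.ext h')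

theorem UU_of {x : 𝓞 K} (h : x ≠ 0) :
    UU x = Additive.ofMul (QuotientGroup.mk (Units.mk0 (x : K) (coe_ne h))) := by
  unfold UU
  rw [dif_pos (coe_ne h)]

theorem UU_mul {x y : 𝓞 K} (hx : x ≠ 0) (hy : y ≠ 0) : UU (x * y) = UU x + UU y := by
  rw [UU_of hx, UU_of hy, UU_of (mul_ne_zero hx hy), ← ofMul_mul, ← QuotientGroup.mk_mul]
  congr 2
  apply Units.ext
  show ((x * y : 𝓞 K) : K) = (x : K) * (y : K)
  push_cast
  rfl

theorem UU_cube {x c : 𝓞 K} (hx : x ≠ 0) (hc : c ≠ 0) : UU (x * c ^ 3) = UU x := by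
  rw [UU_of hx, UU_of (mul_ne_zero hx (pow_ne_zero 3 hc))]
  congr 1
  rw [eq_comm, QuotientGroup.eq]
  refine ⟨Units.mk0 (c : K) (coe_ne hc), ?_⟩
  apply Units.ext
  show ((c : K)) ^ 3 = ((x : K))⁻¹ * ((x * c ^ 3 : 𝓞 K) : K)
  push_cast
  rw [← mul_assoc, inv_mul_cancel₀ (coe_ne hx), one_mul]

/-- equality of classes -/
theorem UU_eq {x y : 𝓞 K} (hx : x ≠ 0) (hy : y ≠ 0) (h : UU x = UU y) :
    ∃ a b : 𝓞 K, a ≠ 0 ∧ b ≠ 0 ∧ x * a ^ 3 = y * b ^ 3 := by
  rw [UU_of hx, UU_of hy] at h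
  have h1 := Additive.ofMul.injective h
  rw [QuotientGroup.eq] at h1
  obtain ⟨t, ht⟩ := h1
  have h2 : (t : K) ^ 3 = ((x : K))⁻¹ * (y : K) := by
    have := congrArg (fun u : Kˣ => (u : K)) ht
    exact this
  obtain ⟨a, b, hb, hab⟩ := IsFractionRing.div_surjective (A := 𝓞 K) (t : K)
  have hb0 : b ≠ 0 := nonZeroDivisors.ne_zero hb
  have hbK : (b : K) ≠ 0 := coe_ne hb0
  have ha0 : a ≠ 0 := by
    rintro rfl
    rw [map_zero, zero_div] at hab
    exact t.ne_zero hab.symm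
  refine ⟨a, b, ha0, hb0, ?_⟩
  have hxK : algebraMap (𝓞 K) K x ≠ 0 := coe_ne hx
  have hbK' : algebraMap (𝓞 K) K b ≠ 0 := coe_ne hb0
  have h3 : algebraMap (𝓞 K) K a = (t : K) * algebraMap (𝓞 K) K b := by
    rw [← hab, div_mul_cancel₀ _ hbK']
  have h2' : (t : K) ^ 3 = (algebraMap (𝓞 K) K x)⁻¹ * algebraMap (𝓞 K) K y := h2
  have h4 : algebraMap (𝓞 K) K (x * a ^ 3) = algebraMap (𝓞 K) K (y * b ^ 3) := by
    rw [map_mul, map_pow, map_mul, map_pow, h3, mul_pow, h2', ← mul_assoc, ← mul_assoc,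
      mul_inv_cancel₀ hxK, one_mul]
  exact RingOfIntegers.ext h4

variable (j : Ei ≃+* 𝓞 K)

include j in
theorem famO_ne {x : 𝓞 K} (hx : FamO x) : x ≠ 0 := by
  obtain ⟨z, rfl⟩ := j.surjective x
  intro h
  exact famU_ne ((famO_iff j z).1 hx) (j.injective (by rw [h, map_zero]))

include j in
theorem famO_mul {x y : 𝓞 K} (hx : FamO x) (hy : FamO y) :
    ∃ z c : 𝓞 K, FamO z ∧ c ≠ 0 ∧ x * y = z * c ^ 3 := by
  obtain ⟨x, rfl⟩ := j.surjective x
  obtain ⟨y, rfl⟩ := j.surjective y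
  obtain ⟨z, c, h1, h2, h3⟩ := famU_mul ((famO_iff j x).1 hx) ((famO_iff j y).1 hy)
  refine ⟨j z, j c, (famO_iff j z).2 h1, fun h => h2 (j.injective (by rw [h, map_zero])), ?_⟩
  rw [← map_mul, h3, map_mul, map_pow]

include j in
theorem famO_unique {x y a b : 𝓞 K} (hx : FamO x) (hy : FamO y) (ha : a ≠ 0) (hb : b ≠ 0)
    (h : x * a ^ 3 = y * b ^ 3) : x = y := by
  obtain ⟨x, rfl⟩ := j.surjective x
  obtain ⟨y, rfl⟩ := j.surjective y
  obtain ⟨a, rfl⟩ := j.surjective a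
  obtain ⟨b, rfl⟩ := j.surjective b
  rw [← map_pow, ← map_pow, ← map_mul, ← map_mul] at h
  rw [famU_unique ((famO_iff j x).1 hx) ((famO_iff j y).1 hy) (fun h => ha (by rw [h, map_zero]))
    (fun h => hb (by rw [h, map_zero])) (j.injective h)]

include j in
theorem UU_inj {x y : 𝓞 K} (hx : FamO x) (hy : FamO y) (h : UU x = UU y) : x = y := by
  obtain ⟨a, b, ha, hb, hab⟩ := UU_eq (famO_ne j hx) (famO_ne j hy) h
  exact famO_unique j hx hy ha hb hab

theorem UU_add3 (v : VV K) : v + v + v = 0 := by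
  induction v using Additive.rec with
  | _ v =>
    induction v using QuotientGroup.induction_on with
    | H t =>
      show Additive.ofMul (QuotientGroup.mk t * QuotientGroup.mk t * QuotientGroup.mk t :
        Kˣ ⧸ (powMonoidHom 3 : Kˣ →* Kˣ).range) = 0
      rw [← QuotientGroup.mk_mul, ← QuotientGroup.mk_mul]
      have : (QuotientGroup.mk (t * t * t) : Kˣ ⧸ (powMonoidHom 3 : Kˣ →* Kˣ).range) = 1 := by
        rw [QuotientGroup.eq_one_iff]
        exact ⟨t, by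
          show t ^ 3 = _
          rw [pow_succ, pow_two]⟩
      rw [this]
      rfl

end

end Run7.h460.JL
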