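import Pool.Agent.Run7.h460.JL.Mono
import Pool.Agent.Run7.h707.TF.Inv
import Pool.Agent.Run7.h707.TF.LawA
import Pool.Agent.N883.FG.End

/-!
# The joint law and the formula over the ring of integers
-/

set_option autoImplicit false
set_option linter.unusedVariables false
set_option linter.unusedSectionVars false

open scoped Classical

namespace Run7.h460.JL

open Finset Filter
open NumberField
open Pool.Agent.Y692.QS (Ei w nr)
open Pool.Agent.Y699.E (nrm prm prm_ne_zero prm_mul prm_one)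
open Pool.Agent.Y703.XK (c9)
open Pool.Agent.Y703.CT (Dt pD Ker)
open Pool.Agent.Y696.CTK (Tri Law3)
open Pool.Agent.N883.FF (nq ClP w_pow_inj isUnit_w nr_w_mul pB nunitB cf_pB FamE NxE FamK NxK
  famK_iff nxK_iff)
open Pool.Agent.N883.FF.Den3 (CF nq_zero)
open Run7.h707.TC (dlt UC NEc FamU FamO famO_iff tuple_ncard nx_iff)
open Run7.h707.TD
open Run7.h707.TE (UO uO_iff)
open Run7.h707.TF

section
variable {K : Type} [Field K] [NumberField K] (j : Ei ≃+* 𝓞 K)

/-- the cube-free part of a nonexceptional monomial -/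
theorem form_E {m : ℕ} (n : Fin m → ℕ) {a : Fin m → Ei} (ha : ∀ k, FamU (a k))
    (hn : NEc (dlt n a)) : ∃ D c : Ei, c ≠ 0 ∧ dlt n a = D * c ^ 3 ∧ FamE D ∧ NxE D ∧
      (Tri (j (dlt n a)) ↔ Tri (j D)) := by
  obtain ⟨J, _, _, π, e, i, c, hD, hc, hd, h9⟩ := canon n ha hn
  refine ⟨pB π e i, c, hc, hd, ⟨nunitB hD, (cf_pB hD).2, i, ?_⟩, ?_, ?_⟩
  · have h1 : pB π e i - w ^ i.val = w ^ i.val * (pD π e - 1) := by
      unfold Pool.Agent.N883.FF.pB
      ring
    rw [h1]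
    exact Dvd.dvd.mul_left (Pool.Agent.R419.CE.three_pD hD) _
  · have h1 := nx_iff hD i (c := 1) prm_one
    rw [one_pow, mul_one] at h1
    intro h2
    obtain ⟨h3, h4⟩ := h1.1 h2
    exact h9 h3 h4
  · rw [hd, tri_pB j hD h9 hc]
    have h1 := tri_pB j hD h9 (c := 1) one_ne_zero
    rw [one_pow, mul_one] at h1
    exact h1.symm

theorem one_cls {m : ℕ} (n : Fin m → ℕ) {p : Fin m → ZMod 3 × Ei} (hp : ∀ k, prm (p k).2) :
    ((3 : Ei) ∣ dlt n (fun k => ew (p k)) - 1 ∧ (9 : ℤ) ∣ nr (dlt n fun k => ew (p k)) - 1) ↔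
      ∑ k, n k • cls (p k) = 0 := by
  rw [smul_cls, Prod.mk_eq_zero, ← nq_dlt n hp, nq_zero (prm_dlt n hp), dlt_ew, nr_w_mul]
  refine and_congr ?_ Iff.rfl
  have h1 : (w : Ei) ^ (∑ k, (n k : ZMod 3) * (p k).1).val * dlt n (fun k => (p k).2) - 1 =
      w ^ (∑ k, (n k : ZMod 3) * (p k).1).val * (dlt n (fun k => (p k).2) - 1) +
        (w ^ (∑ k, (n k : ZMod 3) * (p k).1).val - 1) := by ring
  rw [h1, (dvd_add_right (Dvd.dvd.mul_left (prm_dlt n hp) _))]
  constructor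
  · intro h
    exact w_pow_inj (b := 0) (by simpa using h)
  · intro h
    rw [h]
    simp

theorem sc_cls {p p' : ZMod 3 × Ei} (hp : prm p.2) (hp' : prm p'.2) :
    ((3 : Ei) ∣ ew p - ew p' ∧ (9 : ℤ) ∣ nr (ew p) - nr (ew p')) ↔ cls p = cls p' := by
  rw [nr_ew, nr_ew]
  have e1 : ew p - ew p' = (w ^ p.1.val * (p.2 - 1) - w ^ p'.1.val * (p'.2 - 1)) +
      (w ^ p.1.val - w ^ p'.1.val) := by
    unfold ew
    ring
  have hd : (3 : Ei) ∣ w ^ p.1.val * (p.2 - 1) - w ^ p'.1.val * (p'.2 - 1) :=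
    dvd_sub (Dvd.dvd.mul_left hp _) (Dvd.dvd.mul_left hp' _)
  rw [e1, dvd_add_right hd]
  constructor
  · rintro ⟨h1, h2⟩
    refine Prod.ext (w_pow_inj h1) (nq_mod ?_)
    exact Int.emod_eq_emod_iff_emod_sub_eq_zero.2 (Int.emod_eq_zero_of_dvd h2)
  · intro h
    have h1 : p.1 = p'.1 := congrArg (fun c : ZMod 3 × ZMod 3 => c.1) h
    have h2 : nq p.2 = nq p'.2 := congrArg (fun c : ZMod 3 × ZMod 3 => c.2) h
    refine ⟨by rw [h1, sub_self]; exact dvd_zero _, ?_⟩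
    have h3 := nq_spec hp
    have h4 := nq_spec hp'
    rw [h2] at h3
    have e2 : nr p.2 - nr p'.2 = (nr p.2 - (1 + 3 * ((nq p'.2).val : ℤ))) -
        (nr p'.2 - (1 + 3 * ((nq p'.2).val : ℤ))) := by ring
    rw [e2]
    exact dvd_sub h3 h4

end

/-! ### the statements over `𝓞 K` -/

section
variable {K : Type} [Field K] [NumberField K] {m q : ℕ}

/-- the same class modulo nine -/
def SC (x y : 𝓞 K) : Prop := (3 : 𝓞 K) ∣ x - y ∧ (9 : ℤ) ∣ Algebra.norm ℤ x - Algebra.norm ℤ y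

/-- the exceptional class -/
def IsOne (x : 𝓞 K) : Prop := (3 : 𝓞 K) ∣ x - 1 ∧ (9 : ℤ) ∣ Algebra.norm ℤ x - 1

/-- the monomials -/
noncomputable def tw (c : Fin q → 𝓞 K) (e : Fin q → Fin m → ℕ) (a : Fin m → 𝓞 K) (t : Fin q) : 𝓞 K :=
  c t * ∏ i, a i ^ e t i

/-- related monomials -/
def Rel (c : Fin q → 𝓞 K) (e : Fin q → Fin m → ℕ) (t t' : Fin q) : Prop :=
  ∃ f : ℕ, (f = 1 ∨ f = 2) ∧ (∀ i, 3 ∣ e t i + f * e t' i) ∧ ∃ x : 𝓞 K, c t * c t' ^ f = x ^ 3

/-- the tuples in the class of `r` -/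
def InC (r a : Fin m → 𝓞 K) : Prop := ∀ i, FamO (a i) ∧ SC (a i) (r i)

/-- the number of the tuples of norms at most `X` -/
noncomputable def num (X : ℕ) (P : (Fin m → 𝓞 K) → Prop) : ℝ :=
  ({a : Fin m → 𝓞 K | (∀ i, Algebra.norm ℤ (a i) ≤ X) ∧ P a}.ncard : ℝ)

theorem dvd3 {j : Ei ≃+* 𝓞 K} {x y : Ei} : (3 : 𝓞 K) ∣ j x - j y ↔ (3 : Ei) ∣ x - y := by
  rw [← map_sub, ← map_ofNat j 3, map_dvd_iff j]

/-- **The joint law and the formula.** -/
theorem finJ (K : Type) [Field K] [NumberField K] [IsCyclotomicExtension {3} ℚ K]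
    (c : Fin q → 𝓞 K) (e : Fin q → Fin m → ℕ) (hc : ∀ t, FamO (c t))
    (he : ∀ t, ∃ i, ¬ 3 ∣ e t i) (hsep : ∀ t t', t ≠ t' → ¬ Rel c e t t')
    (r : Fin m → 𝓞 K) (hr : ∀ i, FamO (r i)) (h1 : ∀ t, ¬ IsOne (tw c e r t)) :
    (∃ (C : ℝ) (X₀ : ℕ), 0 < C ∧ ∀ X : ℕ, X₀ ≤ X → C * (X : ℝ) ^ m ≤ num X (InC r)) ∧
    (∀ E : Fin q → (Fin m → 𝓞 K) → Prop,
      (∀ a, InC r a → ∀ t, ¬ UO (tw c e a t) → (E t a ↔ Tri (tw c e a t))) →
      ∀ T : Finset (Fin q), Tendsto (fun X : ℕ =>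
        num X (fun a => InC r a ∧ ∀ t, (E t a ↔ t ∈ T)) / num X (InC r)) atTop
        (nhds (c9 ^ T.card * (1 - c9) ^ (q - T.card)))) ∧
    Tendsto (fun X : ℕ => num X (fun a => InC r a ∧ ∃ t, UO (tw c e a t)) / num X (InC r)) atTop
      (nhds 0) ∧
    ∀ a, InC r a → ∀ t, UO (tw c e a t) ∨ ∃ D x : 𝓞 K, x ≠ 0 ∧ tw c e a t = D * x ^ 3 ∧ FamK D ∧
      Law3 D ∧ (Tri (tw c e a t) ↔ Tri D) := by
  obtain ⟨⟨j, hj⟩, -⟩ := Pool.Agent.Y455.CTK.jex K
  -- the coefficients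
  have hex : ∀ x : 𝓞 K, FamO x → ∃ p : ZMod 3 × Ei, ClP p.2 ∧ j (ew p) = x := by
    intro x hx
    obtain ⟨z, rfl⟩ := j.surjective x
    have h1 : FamU z := (famO_iff j z).1 hx
    obtain ⟨p, hp, hpz⟩ := (famU_ew (X := (nr z).toNat)).1 ⟨Int.self_le_toNat _, h1⟩
    exact ⟨p, (mem_CF'.1 (mem_product.1 hp).2).2, by rw [hpz]⟩
  choose pb hpb hpc using fun t => hex (c t) (hc t)
  choose pr hpr hprr using fun i => hex (r i) (hr i)
  obtain ⟨u, hu⟩ : ∃ u : Fin m → ZMod 3 × ZMod 3, u = fun i => cls (pr i) := ⟨_, rfl⟩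
  have he' : ∀ t, ∃ k, (e t k : ZMod 3) ≠ 0 := by
    intro t
    obtain ⟨i, hi⟩ := he t
    exact ⟨i, fun h => hi ((ZMod.natCast_eq_zero_iff _ 3).1 h)⟩
  -- the monomials
  have htw : ∀ (b : Fin m → Ei) (t : Fin q), tw c e (fun k => j (b k)) t =
      j (dlt (e t) b * ew (pb t)) := by
    intro b t
    unfold tw Run7.h707.TC.dlt
    rw [map_mul, map_prod, hpc, mul_comm]
    simp only [map_pow]
  have hsep' : ∀ t t', t ≠ t' → ∀ f : ℕ, (f = 1 ∨ f = 2) →
      (∀ k, (e t k : ZMod 3) + f * e t' k = 0) →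
      ¬ ∃ x : Ei, ew (pb t) * ew (pb t') ^ f = x ^ 3 := by
    intro t t' htt f hf hk
    rintro ⟨x, hx⟩
    refine hsep t t' htt ⟨f, hf, fun i => ?_, j x, ?_⟩
    · have h2 := hk i
      rw [← ZMod.natCast_eq_zero_iff _ 3]
      push_cast
      exact h2
    · rw [← hpc t, ← hpc t', ← map_pow, ← map_mul, hx, map_pow]
  have hu' : ∀ t, ∑ k, e t k • u k + cls (pb t) ≠ 0 := by
    intro t h0
    apply h1 t
    have h2 : ∀ k, prm (Fin.append pr pb k).2 :=
      append_all (P := fun r : ZMod 3 × Ei => prm r.2) (fun k => (hpr k).1) fun l => (hpb l).1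
    have h3 := one_cls (nnq e t) h2
    rw [cls_nn, ← append_ew', dlt_nn] at h3
    have h4 : ∑ k, e t k • cls (pr k) + cls (pb t) = 0 := by rw [← h0, hu]
    have h5 := h3.2 h4
    have h6 : tw c e r t = j (dlt (e t) (fun k => ew (pr k)) * ew (pb t)) := by
      rw [← htw]
      congr 1
      exact (funext hprr).symm
    unfold IsOne
    rw [h6, hj]
    refine ⟨?_, h5.2⟩
    rw [← map_one j, dvd3]
    exact h5.1
  -- the classes
  have hcls : ∀ X (b : Fin m → Ei), b ∈ SA m X →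
      (InC r (fun k => j (b k)) ↔ CQ (fun u' => u' = u) b) := by
    intro X b hb
    obtain ⟨p, hp, rfl⟩ := ex_ew hb
    rw [cq_ew hp]
    unfold InC
    constructor
    · intro h
      rw [hu]
      funext k
      obtain ⟨-, h3, h4⟩ := h k
      rw [← hprr k, dvd3] at h3
      rw [← hprr k, hj, hj] at h4
      exact (sc_cls (hp k) (hpr k).1).1 ⟨h3, h4⟩
    · intro h k
      have h2 : cls (p k) = cls (pr k) := by
        have := congrFun h k
        rw [hu] at this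
        exact this
      obtain ⟨h3, h4⟩ := (sc_cls (hp k) (hpr k).1).2 h2
      refine ⟨(famO_iff j _).2 (hb k).2, ?_, ?_⟩
      · rw [← hprr k, dvd3]
        exact h3
      · rw [← hprr k, hj, hj]
        exact h4
  -- the numbers
  have hnum : ∀ (P : (Fin m → 𝓞 K) → Prop) (X : ℕ), num X (fun a => InC r a ∧ P a) =
      ({b : Fin m → Ei | b ∈ SA m X ∧ (CQ (fun u' => u' = u) b ∧ P fun k => j (b k))}.ncard : ℝ) := by
    intro P X
    unfold num
    rw [tuple_ncard j]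
    congr 2
    ext b
    simp only [Set.mem_ofPred_eq]
    constructor
    · rintro ⟨h2, h3, h4⟩
      have h5 : b ∈ SA m X := fun k => ⟨by rw [← hj]; exact h2 k, (famO_iff j _).1 (h3 k).1⟩
      exact ⟨h5, (hcls X b h5).1 h3, h4⟩
    · rintro ⟨h2, h3, h4⟩
      exact ⟨fun k => by rw [hj]; exact (h2 k).1, (hcls X b h2).2 h3, h4⟩
  have hdl : ∀ (P : (Fin m → 𝓞 K) → Prop) (L : ℝ),
      DL (SA m) (NA m) (fun b => CQ (fun u' => u' = u) b ∧ P fun k => j (b k)) L →
      Tendsto (fun X : ℕ => num X (fun a => InC r a ∧ P a) / NA m X) atTop (nhds L) := by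
    intro P L h
    unfold DL at h
    refine Filter.Tendsto.congr (fun X => ?_) h
    rw [hnum P X]
  have hnumT : ∀ X : ℕ, num X (InC r) = num X (fun a => InC r a ∧ True) := by
    intro X
    unfold num
    simp only [and_true]
  have hbase : Tendsto (fun X : ℕ => num X (InC r) / NA m X) atTop (nhds (1 / 9 ^ m)) := by
    have h2 := law_T e j hpb he' hsep' hu' ∅
    rw [card_empty, pow_zero, mul_one] at h2
    have h3 := hdl (fun _ => True) (1 / 9 ^ m) (h2.congr fun X b _ => by simp)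
    simp only [hnumT]
    exact h3
  obtain ⟨C, X₀, hC, hlow⟩ := AT_low (m := m)
  have hratio : ∀ (P : (Fin m → 𝓞 K) → Prop) (L : ℝ),
      Tendsto (fun X : ℕ => num X (fun a => InC r a ∧ P a) / NA m X) atTop (nhds (1 / 9 ^ m * L)) →
      Tendsto (fun X : ℕ => num X (fun a => InC r a ∧ P a) / num X (InC r)) atTop (nhds L) := by
    intro P L h
    have h2 := h.div hbase (by positivity)
    have e1 : (1 : ℝ) / 9 ^ m * L / (1 / 9 ^ m) = L := by
      field_simp
    rw [e1] at h2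
    refine h2.congr' ?_
    filter_upwards [eventually_ge_atTop (max X₀ 1)] with X hX
    have h3 : (0 : ℝ) < NA m X := by
      have h4 := hlow X ((le_max_left _ _).trans hX)
      have h5 : (0 : ℝ) < X := by exact_mod_cast (le_max_right _ _).trans hX
      exact lt_of_lt_of_le (by positivity) h4
    show num X (fun a => InC r a ∧ P a) / NA m X / (num X (InC r) / NA m X) = _
    rw [div_div_div_cancel_right₀ h3.ne']
  refine ⟨?_, ?_, ?_, ?_⟩
  · -- the number of the tuples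
    have h9 : (0 : ℝ) < 1 / 9 ^ m := by positivity
    have h2 := hbase.eventually (lt_mem_nhds (show (1 : ℝ) / 9 ^ m / 2 < 1 / 9 ^ m by linarith))
    obtain ⟨X₁, hX₁⟩ := eventually_atTop.1 h2
    refine ⟨C * (1 / 9 ^ m / 2), max (max X₀ X₁) 1, by positivity, fun X hX => ?_⟩
    have h3 := hX₁ X ((le_max_right _ _).trans ((le_max_left _ _).trans hX))
    have h4 := hlow X ((le_max_left _ _).trans ((le_max_left _ _).trans hX))
    have h5 : (0 : ℝ) < X := by exact_mod_cast (le_max_right _ _).trans hX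
    have h6 : (0 : ℝ) < NA m X := lt_of_lt_of_le (by positivity) h4
    rw [lt_div_iff₀ h6] at h3
    refine le_trans ?_ h3.le
    calc C * (1 / 9 ^ m / 2) * (X : ℝ) ^ m = (1 / 9 ^ m / 2) * (C * (X : ℝ) ^ m) := by ring
      _ ≤ (1 / 9 ^ m / 2) * NA m X := mul_le_mul_of_nonneg_left h4 (by positivity)
  · intro E hE T
    refine hratio (fun a => ∀ t, (E t a ↔ t ∈ T)) _ (hdl _ _ ?_)
    have h2 := law_pat e j hpb he' hsep' hu' T
    refine h2.of_zero (SA_fin m) (NA_nonneg m) (uc_zero e hpb he') fun X b hb hz => ?_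
    rw [not_exists] at hz
    refine and_congr_right fun hcq => forall_congr' fun t => ?_
    rw [hE _ ((hcls X b hb).2 hcq) t (by rw [htw, uO_iff]; exact hz t), htw]
  · have h2 := uc_zero e hpb he'
    have h3 : DL (SA m) (NA m) (fun b => CQ (fun u' => u' = u) b ∧
        ∃ t, UO (tw c e (fun k => j (b k)) t)) 0 := by
      refine h2.mono_zero (SA_fin m) (NA_nonneg m) fun X b _ h => ?_
      obtain ⟨-, t, ht⟩ := h
      rw [htw, uO_iff] at ht
      exact ⟨t, ht⟩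
    have h4 := hdl (fun a => ∃ t, UO (tw c e a t)) 0 h3
    refine hratio (fun a => ∃ t, UO (tw c e a t)) 0 ?_
    rw [mul_zero]
    exact h4
  · intro a ha t
    obtain ⟨b, rfl⟩ : ∃ b : Fin m → Ei, (fun k => j (b k)) = a :=
      ⟨fun k => j.symm (a k), funext fun k => j.apply_symm_apply _⟩
    obtain ⟨X, hX⟩ : ∃ X : ℕ, b ∈ SA m X := by
      refine ⟨univ.sup fun k => (nr (b k)).toNat, fun k => ⟨?_, (famO_iff j _).1 (ha k).1⟩⟩
      exact (Int.self_le_toNat _).trans (by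
        exact_mod_cast Finset.le_sup (f := fun k => (nr (b k)).toNat) (mem_univ k))
    have hcq := (hcls X b hX).1 ha
    by_cases hU : UC (dlt (e t) b * ew (pb t))
    · left
      rw [htw, uO_iff]
      exact hU
    · right
      have hne := nec_of e hpb hu' hX hcq t hU
      have hfu : ∀ l, FamU (ew (pb l)) := fun l => (famO_iff j _).1 (by rw [hpc]; exact hc l)
      have hall : ∀ k, FamU (Fin.append b (fun l => ew (pb l)) k) :=
        append_all (P := fun x : Ei => FamU x) (fun k => (hX k).2) hfu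
      obtain ⟨D, x, hx, hD, hF, hN, hT⟩ := form_E j (nnq e t) hall (by rw [dlt_nn]; exact hne)
      rw [dlt_nn] at hD hT
      have hFK : FamK (j D) := (famK_iff j D).2 hF
      refine ⟨j D, j x, fun h => hx (j.injective (by rw [h, map_zero])), ?_, hFK, ?_, ?_⟩
      · rw [htw, hD, map_mul, map_pow]
      · exact ((Pool.Agent.N883.FG.finalC K).2.1 (j D) hFK ((nxK_iff j hj D).2 hN)).1
      · rw [htw]
        exact hT

end

end Run7.h460.JL
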