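import Pool.Agent.Run7.h460.JL.Cube
import Pool.Agent.Run7.h460.JL.Form

/-!
# Products of cube-free elements, with primary cubes; the classes modulo nine
-/

set_option autoImplicit false
set_option linter.unusedVariables false
set_option linter.unusedSectionVars false

open scoped Classical

namespace Run7.h460.JL

open Finset NumberField
open Pool.Agent.Y692.QS (Ei w nr)
open Pool.Agent.Y715.T.RecG (Pq)
open Pool.Agent.Y699.E (prm prm_ne_zero prm_mul prm_one)
open Pool.Agent.Y703.CT (Dt pD)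
open Pool.Agent.N883.FF (nq ClP w_pow_inj isUnit_w pB cf_pB)
open Run7.h707.TC (Tt mem_Tt dlt elw UC dlt_eq tt_pq Uu ee FamU FamO famO_iff dt_U famU_ex)
open Run7.h707.TF (nq_spec)

theorem famU_dlt' {m : ℕ} (n : Fin m → ℕ) {a : Fin m → Ei} (ha : ∀ k, FamU (a k)) :
    ∃ z c : Ei, FamU z ∧ c ≠ 0 ∧ prm c ∧ dlt n a = z * c ^ 3 := by
  choose i M S hS hM haa using fun k => famU_ex (ha k)
  have hae : a = fun k => elw (i k) (M k) (S k) := funext haa
  obtain ⟨c, hc, hcp, hd⟩ := dlt_eq n i hM hS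
  have hD := dt_U (tt_pq hS) (ee M (fun k => (n k : ZMod 3)) S)
  refine ⟨_, c, ⟨(cf_pB (i := ∑ k, (n k : ZMod 3) * i k) hD).2, ∑ k, (n k : ZMod 3) * i k, ?_⟩, hc,
    hcp, by rw [hae]; exact hd⟩
  have h1 := Pool.Agent.R419.CE.three_pD hD
  have h2 : pB (fun π : ↥(Uu (Tt S) (ee M (fun k => (n k : ZMod 3)) S)) => (π : Ei))
      (fun π => ee M (fun k => (n k : ZMod 3)) S π) (∑ k, (n k : ZMod 3) * i k) -
      w ^ (∑ k, (n k : ZMod 3) * i k).val = w ^ (∑ k, (n k : ZMod 3) * i k).val *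
      (pD (fun π : ↥(Uu (Tt S) (ee M (fun k => (n k : ZMod 3)) S)) => (π : Ei))
      (fun π => ee M (fun k => (n k : ZMod 3)) S π) - 1) := by
    unfold Pool.Agent.N883.FF.pB
    ring
  rw [h2]
  exact Dvd.dvd.mul_left h1 _

theorem famU_mul' {x y : Ei} (hx : FamU x) (hy : FamU y) :
    ∃ z c : Ei, FamU z ∧ c ≠ 0 ∧ prm c ∧ x * y = z * c ^ 3 := by
  obtain ⟨z, c, h1, h2, h2', h3⟩ := famU_dlt' (fun _ : Fin 2 => 1) (a := ![x, y]) (by
    intro k
    fin_cases k
    · exact hx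
    · exact hy)
  refine ⟨z, c, h1, h2, h2', ?_⟩
  rw [← h3]
  unfold Run7.h707.TC.dlt
  rw [Fin.prod_univ_two, pow_one, pow_one]
  rfl

section
variable {K : Type} [Field K] [NumberField K]

theorem famO_one : FamO (1 : 𝓞 K) :=
  ⟨fun x hx => isUnit_of_dvd_one ((dvd_pow_self x three_ne_zero).trans hx), 1, one_pow 3, by
    rw [sub_self]
    exact dvd_zero _⟩

/-! ### classes -/

theorem SC.refl (x : 𝓞 K) : SC x x := by
  unfold SC
  rw [sub_self, sub_self]
  exact ⟨dvd_zero _, dvd_zero _⟩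

theorem SC.symm {x y : 𝓞 K} (h : SC x y) : SC y x := by
  obtain ⟨h1, h2⟩ := h
  refine ⟨?_, ?_⟩
  · rw [← neg_sub]
    exact (dvd_neg).2 h1
  · rw [← neg_sub]
    exact (dvd_neg).2 h2

theorem SC.trans {x y z : 𝓞 K} (h : SC x y) (h' : SC y z) : SC x z := by
  obtain ⟨h1, h2⟩ := h
  obtain ⟨h3, h4⟩ := h'
  refine ⟨?_, ?_⟩
  · rw [← sub_add_sub_cancel x y z]
    exact dvd_add h1 h3
  · rw [← sub_add_sub_cancel _ (Algebra.norm ℤ y) _]
    exact dvd_add h2 h4

theorem SC.mul {x y x' y' : 𝓞 K} (h : SC x y) (h' : SC x' y') : SC (x * x') (y * y') := by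
  obtain ⟨h1, h2⟩ := h
  obtain ⟨h3, h4⟩ := h'
  refine ⟨?_, ?_⟩
  · have e : x * x' - y * y' = x * (x' - y') + y' * (x - y) := by ring
    rw [e]
    exact dvd_add (Dvd.dvd.mul_left h3 _) (Dvd.dvd.mul_left h1 _)
  · rw [map_mul, map_mul]
    have e : Algebra.norm ℤ x * Algebra.norm ℤ x' - Algebra.norm ℤ y * Algebra.norm ℤ y' =
        Algebra.norm ℤ x * (Algebra.norm ℤ x' - Algebra.norm ℤ y') +
          Algebra.norm ℤ y' * (Algebra.norm ℤ x - Algebra.norm ℤ y) := by ring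
    rw [e]
    exact dvd_add (Dvd.dvd.mul_left h4 _) (Dvd.dvd.mul_left h2 _)

theorem isOne_iff {x : 𝓞 K} : IsOne x ↔ SC x 1 := by
  unfold IsOne SC
  rw [map_one]

theorem SC.isOne {x y : 𝓞 K} (h : SC x y) : IsOne x ↔ IsOne y := by
  rw [isOne_iff, isOne_iff]
  exact ⟨fun h' => h.symm.trans h', fun h' => h.trans h'⟩

variable (j : Ei ≃+* 𝓞 K) (hj : ∀ z : Ei, Algebra.norm ℤ (j z) = nr z)

include hj in
/-- a primary cube is in the class of one -/
theorem SC_cube {c : 𝓞 K} (hc : (3 : 𝓞 K) ∣ c - 1) : SC (c ^ 3) 1 := by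
  obtain ⟨z, rfl⟩ := j.surjective c
  have hz : prm z := by
    rw [← map_one j, ← map_sub, ← map_ofNat j 3, map_dvd_iff j] at hc
    exact hc
  refine ⟨?_, ?_⟩
  · have e : j z ^ 3 - 1 = (j z - 1) * (j z ^ 2 + j z + 1) := by ring
    rw [e]
    exact Dvd.dvd.mul_right hc _
  · rw [map_one, ← map_pow, hj]
    exact Run7.h707.TC.nr_cube hz

include hj in
/-- the cube of an element of the family is in the class of one -/
theorem SC_cube' {x : 𝓞 K} (hx : FamO x) : SC (x ^ 3) 1 := by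
  obtain ⟨ω, h1, h2⟩ := hx.2
  have hu : ω * ω ^ 2 = 1 := by rw [← h1]; ring
  have h3 : (3 : 𝓞 K) ∣ ω ^ 2 * x - 1 := by
    have e : ω ^ 2 * x - 1 = ω ^ 2 * (x - ω) := by
      rw [mul_sub, ← hu]
      ring
    rw [e]
    exact Dvd.dvd.mul_left h2 _
  have h4 := SC_cube j hj h3
  have e : (ω ^ 2 * x) ^ 3 = x ^ 3 := by
    rw [mul_pow, ← pow_mul, mul_comm 2 3, pow_mul, h1, one_pow, one_mul]
  rw [e] at h4
  exact h4

include hj in
/-- the powers of an element which is not in the exceptional class -/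
theorem not_isOne_pow {r : 𝓞 K} (hr : FamO r) (h1 : ¬ IsOne r) {n : ℕ} (hn : ¬ 3 ∣ n) :
    ¬ IsOne (r ^ n) := by
  have hk : ∀ k : ℕ, SC (r ^ (3 * k)) 1 := by
    intro k
    induction k with
    | zero =>
      rw [mul_zero, pow_zero]
      exact SC.refl (1 : 𝓞 K)
    | succ k ih =>
      have := ih.mul (SC_cube' j hj hr)
      rw [mul_one, ← pow_add] at this
      exact this
  have h3 := SC_cube' j hj hr
  intro h
  apply h1
  obtain ⟨k, hk'⟩ : ∃ k, n = 3 * k + 1 ∨ n = 3 * k + 2 := ⟨n / 3, by omega⟩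
  rcases hk' with h4 | h4
  · rw [h4, pow_succ] at h
    have h5 : SC (r ^ (3 * k) * r) r := by
      have := (hk k).mul (SC.refl r)
      rwa [one_mul] at this
    exact h5.isOne.1 h
  · rw [h4, pow_add] at h
    have h5 : SC (r ^ (3 * k) * r ^ 2) (r ^ 2) := by
      have := (hk k).mul (SC.refl (r ^ 2))
      rwa [one_mul] at this
    have h6 := isOne_iff.1 (h5.isOne.1 h)
    have h7 : SC (r ^ 2 * r) r := by
      have := h6.mul (SC.refl r)
      rwa [one_mul] at this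
    have h8 : SC (r ^ 2 * r) 1 := by
      rw [← pow_succ]
      exact h3
    exact isOne_iff.2 (h7.symm.trans h8)

include hj in
theorem famO_mul' {x y : 𝓞 K} (hx : FamO x) (hy : FamO y) :
    ∃ z c : 𝓞 K, FamO z ∧ c ≠ 0 ∧ SC (x * y) z ∧ x * y = z * c ^ 3 := by
  obtain ⟨x, rfl⟩ := j.surjective x
  obtain ⟨y, rfl⟩ := j.surjective y
  obtain ⟨z, c, h1, h2, h2', h3⟩ := famU_mul' ((famO_iff j x).1 hx) ((famO_iff j y).1 hy)
  have h4 : j x * j y = j z * j c ^ 3 := by rw [← map_mul, h3, map_mul, map_pow]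
  refine ⟨j z, j c, (famO_iff j z).2 h1, fun h => h2 (j.injective (by rw [h, map_zero])), ?_, h4⟩
  rw [h4]
  have h5 := (SC.refl (j z)).mul (SC_cube j hj (c := j c) (by
    rw [← map_one j, ← map_sub, ← map_ofNat j 3, map_dvd_iff j]
    exact h2'))
  rwa [mul_one] at h5

include hj in
/-- a product of cube-free elements is a cube-free element times a cube -/
theorem famO_prod {ι : Type*} (S : Finset ι) (d : ι → 𝓞 K) (hd : ∀ i ∈ S, FamO (d i)) :
    ∃ z c : 𝓞 K, FamO z ∧ c ≠ 0 ∧ SC (∏ i ∈ S, d i) z ∧ ∏ i ∈ S, d i = z * c ^ 3 := by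
  induction S using Finset.induction_on with
  | empty => exact ⟨1, 1, famO_one, one_ne_zero, by simp only [prod_empty]; exact SC.refl 1, by simp⟩
  | insert a S ha ih =>
    obtain ⟨z, c, h1, h2, h3, h4⟩ := ih fun i hi => hd i (mem_insert_of_mem hi)
    obtain ⟨z', c', k1, k2, k3, k4⟩ := famO_mul' j hj (hd a (mem_insert_self a S)) h1
    refine ⟨z', c' * c, k1, mul_ne_zero k2 h2, ?_, ?_⟩
    · rw [prod_insert ha]
      exact ((SC.refl (d a)).mul h3).trans k3
    · rw [prod_insert ha, h4, ← mul_assoc, k4]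
      ring

end

end Run7.h460.JL
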