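import Mathlib

/-!
# Densities along a growing sequence of finite sets; patterns of independent events
-/

set_option autoImplicit false

open scoped Classical

namespace Run7.h460.JL

open Filter Topology

variable {α ι : Type*}

/-- the proportion of the property `P` tends to `L` -/
def DL (S : ℕ → Set α) (N : ℕ → ℝ) (P : α → Prop) (L : ℝ) : Prop :=
  Tendsto (fun X => ({a | a ∈ S X ∧ P a}.ncard : ℝ) / N X) atTop (𝓝 L)

theorem DL.congr {S : ℕ → Set α} {N : ℕ → ℝ} {P P' : α → Prop} {L : ℝ} (h : DL S N P L)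
    (hP : ∀ X, ∀ a ∈ S X, (P a ↔ P' a)) : DL S N P' L := by
  unfold DL at h ⊢
  refine h.congr fun X => ?_
  congr 3
  ext a
  simp only [Set.mem_ofPred_eq]
  exact and_congr_right fun ha => hP X a ha

theorem DL.not {S : ℕ → Set α} (hS : ∀ X, (S X).Finite) {N : ℕ → ℝ} {P E : α → Prop} {L L' : ℝ}
    (h : DL S N P L) (h' : DL S N (fun a => P a ∧ E a) L') :
    DL S N (fun a => P a ∧ ¬ E a) (L - L') := by
  unfold DL at h h' ⊢
  refine (h.sub h').congr fun X => ?_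
  rw [← sub_div]
  congr 1
  have h1 : {a | a ∈ S X ∧ P a} = {a | a ∈ S X ∧ P a ∧ E a} ∪ {a | a ∈ S X ∧ P a ∧ ¬ E a} := by
    ext a
    simp only [Set.mem_ofPred_eq, Set.mem_union]
    tauto
  have h2 : Disjoint {a | a ∈ S X ∧ P a ∧ E a} {a | a ∈ S X ∧ P a ∧ ¬ E a} := by
    rw [Set.disjoint_left]
    rintro a ⟨-, -, h3⟩ ⟨-, -, h4⟩
    exact h4 h3
  have h3 : ({a | a ∈ S X ∧ P a ∧ E a}).Finite := (hS X).subset fun a ha => ha.1
  have h4 : ({a | a ∈ S X ∧ P a ∧ ¬ E a}).Finite := (hS X).subset fun a ha => ha.1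
  rw [h1, Set.ncard_union_eq h2 h3 h4]
  push_cast
  ring

theorem DL.mono_zero {S : ℕ → Set α} (hS : ∀ X, (S X).Finite) {N : ℕ → ℝ} (hN : ∀ X, 0 ≤ N X)
    {P P' : α → Prop} (h : DL S N P 0) (hP : ∀ X, ∀ a ∈ S X, P' a → P a) : DL S N P' 0 := by
  unfold DL at h ⊢
  refine tendsto_of_tendsto_of_tendsto_of_le_of_le tendsto_const_nhds h (fun X => ?_) fun X => ?_
  · exact div_nonneg (Nat.cast_nonneg _) (hN X)
  · refine div_le_div_of_nonneg_right ?_ (hN X)
    have h3 : {a | a ∈ S X ∧ P' a} ⊆ {a | a ∈ S X ∧ P a} := fun a ha => ⟨ha.1, hP X a ha.1 ha.2⟩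
    have h4 : ({a | a ∈ S X ∧ P a}).Finite := (hS X).subset fun a ha => ha.1
    exact Nat.cast_le.2 (Set.ncard_le_ncard h3 h4)

/-- a set of density zero does not matter -/
theorem DL.of_zero {S : ℕ → Set α} (hS : ∀ X, (S X).Finite) {N : ℕ → ℝ} (hN : ∀ X, 0 ≤ N X)
    {P P' Z : α → Prop} {L : ℝ} (h : DL S N P L) (hZ : DL S N Z 0)
    (hP : ∀ X, ∀ a ∈ S X, ¬ Z a → (P a ↔ P' a)) : DL S N P' L := by
  unfold DL at h hZ ⊢
  have h1 := h.sub hZ
  have h2 := h.add hZ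
  rw [sub_zero] at h1
  rw [add_zero] at h2
  refine tendsto_of_tendsto_of_tendsto_of_le_of_le h1 h2 (fun X => ?_) fun X => ?_
  · show _ - _ ≤ _
    rw [← sub_div]
    refine div_le_div_of_nonneg_right ?_ (hN X)
    rw [sub_le_iff_le_add]
    have h3 : {a | a ∈ S X ∧ P a} ⊆ {a | a ∈ S X ∧ P' a} ∪ {a | a ∈ S X ∧ Z a} := by
      rintro a ⟨ha, hp⟩
      by_cases hz : Z a
      · exact Or.inr ⟨ha, hz⟩
      · exact Or.inl ⟨ha, (hP X a ha hz).1 hp⟩
    have h4 : ({a | a ∈ S X ∧ P' a}).Finite := (hS X).subset fun a ha => ha.1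
    have h5 : ({a | a ∈ S X ∧ Z a}).Finite := (hS X).subset fun a ha => ha.1
    have h10 := Nat.cast_le (α := ℝ).2
      ((Set.ncard_le_ncard h3 (h4.union h5)).trans (Set.ncard_union_le _ _))
    rw [Nat.cast_add] at h10
    exact h10
  · show _ ≤ _ + _
    rw [← add_div]
    refine div_le_div_of_nonneg_right ?_ (hN X)
    have h3 : {a | a ∈ S X ∧ P' a} ⊆ {a | a ∈ S X ∧ P a} ∪ {a | a ∈ S X ∧ Z a} := by
      rintro a ⟨ha, hp⟩
      by_cases hz : Z a
      · exact Or.inr ⟨ha, hz⟩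
      · exact Or.inl ⟨ha, (hP X a ha hz).2 hp⟩
    have h4 : ({a | a ∈ S X ∧ P a}).Finite := (hS X).subset fun a ha => ha.1
    have h5 : ({a | a ∈ S X ∧ Z a}).Finite := (hS X).subset fun a ha => ha.1
    have h10 := Nat.cast_le (α := ℝ).2
      ((Set.ncard_le_ncard h3 (h4.union h5)).trans (Set.ncard_union_le _ _))
    rw [Nat.cast_add] at h10
    exact h10

/-- **patterns** -/
theorem DL.pattern_aux {S : ℕ → Set α} (hS : ∀ X, (S X).Finite) {N : ℕ → ℝ} {F : α → Prop}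
    {E : ι → α → Prop} {κ c : ℝ}
    (h : ∀ T : Finset ι, DL S N (fun a => F a ∧ ∀ t ∈ T, E t a) (κ * c ^ T.card))
    (B : Finset ι) : ∀ T : Finset ι, Disjoint T B →
      DL S N (fun a => (F a ∧ ∀ t ∈ T, E t a) ∧ ∀ t ∈ B, ¬ E t a)
        (κ * c ^ T.card * (1 - c) ^ B.card) := by
  induction B using Finset.induction_on with
  | empty =>
    intro T _
    rw [Finset.card_empty, pow_zero, mul_one]
    exact (h T).congr fun X a _ => by simp
  | insert b B hb ih =>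
    intro T hT
    rw [Finset.disjoint_insert_right] at hT
    have h1 := ih T hT.2
    have h2 := ih (insert b T) (by
      rw [Finset.disjoint_insert_left]
      exact ⟨hb, hT.2⟩)
    have h3 : DL S N (fun a => ((F a ∧ ∀ t ∈ T, E t a) ∧ ∀ t ∈ B, ¬ E t a) ∧ E b a)
        (κ * c ^ (insert b T).card * (1 - c) ^ B.card) := by
      refine h2.congr fun X a _ => ?_
      simp only [Finset.mem_insert, forall_eq_or_imp]
      tauto
    have h4 := h1.not hS h3
    rw [Finset.card_insert_of_notMem hT.1] at h4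
    rw [Finset.card_insert_of_notMem hb]
    have e : κ * c ^ T.card * (1 - c) ^ B.card - κ * c ^ (T.card + 1) * (1 - c) ^ B.card =
        κ * c ^ T.card * (1 - c) ^ (B.card + 1) := by ring
    rw [e] at h4
    refine h4.congr fun X a _ => ?_
    simp only [Finset.mem_insert, forall_eq_or_imp]
    tauto

theorem DL.pattern [Fintype ι] {S : ℕ → Set α} (hS : ∀ X, (S X).Finite) {N : ℕ → ℝ} {F : α → Prop}
    {E : ι → α → Prop} {κ c : ℝ}
    (h : ∀ T : Finset ι, DL S N (fun a => F a ∧ ∀ t ∈ T, E t a) (κ * c ^ T.card))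
    (T : Finset ι) :
    DL S N (fun a => F a ∧ ∀ t, (E t a ↔ t ∈ T))
      (κ * (c ^ T.card * (1 - c) ^ (Fintype.card ι - T.card))) := by
  have h1 := DL.pattern_aux hS h Tᶜ T disjoint_compl_right
  rw [Finset.card_compl, mul_assoc] at h1
  refine h1.congr fun X a _ => ?_
  simp only [Finset.mem_compl]
  constructor
  · rintro ⟨⟨h2, h3⟩, h4⟩
    exact ⟨h2, fun t => ⟨fun h5 => by_contra fun h6 => h4 t h6 h5, h3 t⟩⟩
  · rintro ⟨h2, h3⟩
    exact ⟨⟨h2, fun t ht => (h3 t).2 ht⟩, fun t ht h5 => ht ((h3 t).1 h5)⟩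

end Run7.h460.JL
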