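import Pool.Agent.Run7.h460.JL.Inst
import Pool.Agent.N883.FF.End

/-!
# The theorems on dense sets over the ring of integers
-/

set_option autoImplicit false
set_option linter.unusedVariables false
set_option linter.unusedSectionVars false

open scoped Classical

namespace Run7.h460.JL

open Finset NumberField Filter
open Pool.Agent.Y692.QS (Ei w nr)
open Pool.Agent.Y703.XK (c9)
open Pool.Agent.Y696.CTK (Tri Law3)
open Pool.Agent.N883.FF (FamK)
open Run7.h707.TC (FamU FamO famO_iff)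
open Run7.h707.TE (UO uO_iff)
open Run7.h460.JL.Mix Run7.h460.JL.Uni

/-- the constant -/
theorem c9_spec : (0.639 : ℝ) < c9 ∧ c9 < 0.6391 ∧ 0 < c9 ∧ c9 < 1 := by
  obtain ⟨-, h1, h2, h3, h4⟩ := Pool.Agent.XLK.t_C9
  exact ⟨h3, h4, h1, h2⟩

theorem pr_eq {V : Type*} {c : ℝ} {R W : Finset V} (h : W ⊆ R) :
    pr c R W = c ^ W.card * (1 - c) ^ (R.card - W.card) := by
  unfold pr
  rw [card_sdiff_of_subset h]

theorem cn_le {α : Type*} {T : Finset α} {A B : Set α} (h : ∀ a ∈ T, a ∈ A → a ∈ B) :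
    cn T A ≤ cn T B := by
  unfold cn
  refine Nat.cast_le.2 (card_le_card fun a ha => ?_)
  obtain ⟨h1, h2⟩ := mem_filter.1 ha
  exact mem_filter.2 ⟨h1, h a h1 h2⟩

theorem cn_le_card {α : Type*} (T : Finset α) (A : Set α) : cn T A ≤ (T.card : ℝ) := by
  unfold cn
  exact Nat.cast_le.2 (card_filter_le _ _)

section
variable {K : Type} [Field K] [NumberField K]

/-- the elements of the class of `r` of norm at most `X` -/
def BB (r : 𝓞 K) (X : ℕ) : Set (𝓞 K) := {a | Algebra.norm ℤ a ≤ X ∧ FamO a ∧ SC a r}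

/-- the upper density of `A` in the class of `r` is at least `δ` -/
def UDG (r : 𝓞 K) (A : Set (𝓞 K)) (δ : ℝ) : Prop :=
  ∀ ε : ℝ, 0 < ε → ∃ᶠ X : ℕ in atTop, (δ - ε) * ((BB r X).ncard : ℝ) ≤ ((BB r X ∩ A).ncard : ℝ)

/-- the `3`-part, `E_D` being a model of `E_x` -/
def TP (x : 𝓞 K) : Prop :=
  ∃ D : 𝓞 K, ((∃ y : 𝓞 K, y ≠ 0 ∧ x = D * y ^ 3) ∧ FamO D ∧ ¬ IsUnit D ∧ Law3 D) ∧ Tri D

variable (j : Ei ≃+* 𝓞 K) (hj : ∀ z : Ei, Algebra.norm ℤ (j z) = nr z)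

include j hj in
theorem udg_iff {r : 𝓞 K} {A : Set (𝓞 K)} {δ : ℝ} : UDG r A δ ↔ UD (SX r) A δ := by
  have h1 : ∀ X, ((SX r X : Finset (𝓞 K)) : Set (𝓞 K)) = BB r X := by
    intro X
    ext a
    rw [mem_coe, mem_SX j hj]
    exact Iff.rfl
  have h2 : ∀ X, ((BB r X).ncard : ℝ) = ((SX r X).card : ℝ) := by
    intro X
    rw [← h1, Set.ncard_coe_finset]
  have h3 : ∀ X, ((BB r X ∩ A).ncard : ℝ) = cn (SX r X) A := by
    intro X
    unfold cn
    rw [← h1, ← Set.ncard_coe_finset]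
    congr 2
    ext a
    rw [mem_coe, mem_filter]
    exact Iff.rfl
  unfold UDG UD
  simp only [h2, h3]

end

section
variable {K : Type} [Field K] [NumberField K] [IsCyclotomicExtension {3} ℚ K]
  (j : Ei ≃+* 𝓞 K) (hj : ∀ z : Ei, Algebra.norm ℤ (j z) = nr z)

include j in
theorem tp_iff {x z c : 𝓞 K} (hz : FamO z) (hc : c ≠ 0) (hx : x = z * c ^ 3) (h1 : ¬ IsOne z) :
    TP x ↔ GG (UU x) := by
  constructor
  · rintro ⟨D, ⟨⟨y, hy, hD⟩, hA, hU, -⟩, hf⟩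
    refine ⟨D, ⟨hU, hA⟩, ?_, hf⟩
    rw [hD, UU_cube (famO_ne j hA) hy]
  · rintro ⟨D, hD, hU, hf⟩
    have h2 : D = z := by
      refine UU_inj j hD.2 hz ?_
      rw [hU, hx, UU_cube (famO_ne j hz) hc]
    refine ⟨D, ⟨⟨c, hc, by rw [h2]; exact hx⟩, hD.2, hD.1, ?_⟩, hf⟩
    exact ((Pool.Agent.N883.FG.finalC K).2.1 D hD (by rw [h2]; exact h1)).1

/-- the units -/
theorem units_fin (K : Type) [Field K] [NumberField K] [IsCyclotomicExtension {3} ℚ K] :
    {u : 𝓞 K | IsUnit u}.Finite := by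
  have hζ := IsCyclotomicExtension.zeta_spec 3 ℚ K
  have h : {u : (𝓞 K)ˣ | True}.Finite := by
    refine Set.Finite.subset (List.finite_toSet _) (fun u _ =>
      IsCyclotomicExtension.Rat.Three.Units.mem hζ u)
  refine (h.image (fun u : (𝓞 K)ˣ => (u : 𝓞 K))).subset ?_
  rintro u ⟨v, rfl⟩
  exact ⟨v, trivial, rfl⟩

/-- the classes of the units -/
noncomputable def BU (K : Type) [Field K] [NumberField K] [IsCyclotomicExtension {3} ℚ K] :
    Finset (VV K) := (units_fin K).toFinset.image UU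

theorem uo_mem {x : 𝓞 K} (hx : x ≠ 0) (h : UO x) : UU x ∈ BU K := by
  obtain ⟨u, y, hu, rfl⟩ := h
  refine mem_image.2 ⟨u, (Set.Finite.mem_toFinset _).2 hu, ?_⟩
  have hy : y ≠ 0 := by
    rintro rfl
    rw [zero_pow three_ne_zero, mul_zero] at hx
    exact hx rfl
  rw [UU_cube (hu.ne_zero) hy]

include j in
theorem few_uo {b : 𝓞 K} (hb : b ≠ 0) : {a : 𝓞 K | FamO a ∧ UO (a * b)}.Finite := by
  refine Set.Finite.of_injOn (f := UU) (t := ((BU K).image fun v => v - UU b : Finset (VV K)))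
    (fun a ha => ?_) (fun a ha a' ha' h => UU_inj j ha.1 ha'.1 h) (finite_toSet _)
  rw [mem_coe, mem_image]
  have ha0 := famO_ne j ha.1
  refine ⟨_, uo_mem (mul_ne_zero ha0 hb) ha.2, ?_⟩
  rw [UU_mul ha0 hb]
  exact add_sub_cancel_right (UU a) (UU b)

/-- the sum of the classes is the class of the product -/
theorem UU_prod {ι : Type*} (S : Finset ι) (d : ι → 𝓞 K) (hd : ∀ i ∈ S, d i ≠ 0) :
    UU (∏ i ∈ S, d i) = ∑ i ∈ S, UU (d i) := by
  induction S using Finset.induction_on with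
  | empty =>
    rw [prod_empty, sum_empty, UU_of one_ne_zero]
    apply Additive.toMul.injective
    rw [toMul_ofMul, toMul_zero]
    have e : Units.mk0 ((1 : 𝓞 K) : K) (coe_ne one_ne_zero) = 1 := by
      apply Units.ext
      show ((1 : 𝓞 K) : K) = 1
      rfl
    rw [e]
    rfl
  | insert a S ha ih =>
    have h5 : ∏ i ∈ S, d i ≠ 0 := prod_ne_zero_iff.2 fun i hi => hd i (mem_insert_of_mem hi)
    rw [prod_insert ha, sum_insert ha, UU_mul (hd a (mem_insert_self a S)) h5,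
      ih fun i hi => hd i (mem_insert_of_mem hi)]

include hj in
/-- the class of a product of elements of the class of `r` -/
theorem SC_prod {ι : Type*} {r : 𝓞 K} (S : Finset ι) (d : ι → 𝓞 K) (hd : ∀ i ∈ S, SC (d i) r) :
    SC (∏ i ∈ S, d i) (r ^ S.card) := by
  induction S using Finset.induction_on with
  | empty =>
    rw [prod_empty, card_empty, pow_zero]
    exact SC.refl (1 : 𝓞 K)
  | insert a S ha ih =>
    rw [prod_insert ha, card_insert_of_notMem ha, pow_succ, mul_comm (r ^ S.card)]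
    exact (hd a (mem_insert_self a S)).mul (ih fun i hi => hd i (mem_insert_of_mem hi))

end

/-- **Mixing.** -/
theorem finM (K : Type) [Field K] [NumberField K] [IsCyclotomicExtension {3} ℚ K]
    (r : 𝓞 K) (hr : FamO r) (h1 : ¬ IsOne r) (T V : Finset (𝓞 K)) (hT : ∀ t ∈ T, FamO t)
    (hV : V ⊆ T) (A : Set (𝓞 K)) (δ ε : ℝ) (hA : UDG r A δ) (hε : 0 < ε) :
    {m : 𝓞 K | FamO m ∧ (∀ t ∈ T, ¬ IsOne (r * m * t)) ∧
      ¬ UDG r {a | a ∈ A ∧ ∀ t ∈ T, (TP (a * m * t) ↔ t ∈ V)}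
        (c9 ^ V.card * (1 - c9) ^ (T.card - V.card) * δ - ε)}.Finite := by
  obtain ⟨⟨j, hj⟩, -⟩ := Pool.Agent.Y455.CTK.jex K
  have hlaw := lawC K j hj c9_spec.2.2.1 c9_spec.2.2.2 hr h1
  have hWR : V.image UU ⊆ T.image UU := image_subset_image hV
  have hTi : Set.InjOn (UU : 𝓞 K → VV K) T := fun a ha b hb h => UU_inj j (hT a ha) (hT b hb) h
  have hVi : Set.InjOn (UU : 𝓞 K → VV K) V := hTi.mono (coe_subset.2 hV)
  have hpr : pr c9 (T.image UU) (V.image UU) =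
      c9 ^ V.card * (1 - c9) ^ (T.card - V.card) := by
    rw [pr_eq hWR, card_image_of_injOn hVi, card_image_of_injOn hTi]
  have hfin := hlaw.finite_exc hWR ((udg_iff j hj).1 hA) hε
  rw [hpr] at hfin
  refine Set.Finite.of_injOn (f := UU) (fun m hm => ?_)
    (fun a ha a' ha' h => UU_inj j ha.1 ha'.1 h) hfin
  obtain ⟨hm, hone, hud⟩ := hm
  refine ⟨fun v hv => ?_, fun h => hud ((udg_iff j hj).2 ?_)⟩
  · obtain ⟨t, ht, rfl⟩ := mem_image.1 hv
    obtain ⟨z, c, hz, hc, hs, he⟩ := famO_mul' j hj hm (hT t ht)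
    refine ⟨z, hz, ?_, fun h => hone t ht ?_⟩
    · rw [← UU_mul (famO_ne j hm) (famO_ne j (hT t ht)), he, UU_cube (famO_ne j hz) hc]
    · have h2 : SC (r * m * t) (z * r) := by
        rw [mul_assoc, mul_comm r]
        exact hs.mul (SC.refl r)
      exact h2.isOne.2 h
  · -- the elements in the class
    have key : ∀ X, ∀ a ∈ SX r X, a ∈ A ∩ Ev UU GG (UU m) (T.image UU) (V.image UU) →
        a ∈ {a | a ∈ A ∧ ∀ t ∈ T, (TP (a * m * t) ↔ t ∈ V)} := by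
      rintro X a haX ⟨haA, haE⟩
      rw [mem_SX j hj] at haX
      refine ⟨haA, fun t ht => ?_⟩
      have h2 := haE (UU t) (mem_image_of_mem _ ht)
      have ha0 := famO_ne j haX.2.1
      have hm0 := famO_ne j hm
      have ht0 := famO_ne j (hT t ht)
      obtain ⟨z, c, hz, hc, hs, he⟩ := famO_mul' j hj haX.2.1 hm
      obtain ⟨z', c', hz', hc', hs', he'⟩ := famO_mul' j hj hz (hT t ht)
      have he2 : a * m * t = z' * (c' * c) ^ 3 := by
        rw [he, mul_right_comm, he']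
        ring
      have hs2 : SC (r * m * t) z' := by
        refine SC.trans ?_ hs'
        exact SC.mul (SC.trans (SC.mul haX.2.2.symm (SC.refl m)) hs) (SC.refl t)
      have h3 := tp_iff j hz' (mul_ne_zero hc' hc) he2 (fun h => hone t ht (hs2.isOne.2 h))
      have h4 : UU (a * m * t) = UU a + (UU m + UU t) := by
        rw [UU_mul (mul_ne_zero ha0 hm0) ht0, UU_mul ha0 hm0]
        exact add_assoc (UU a) (UU m) (UU t)
      rw [h3, h4, h2]
      constructor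
      · intro h5
        obtain ⟨t', ht', h6⟩ := mem_image.1 h5
        rw [← hTi (hV ht') ht h6]
        exact ht'
      · exact fun h5 => mem_image_of_mem _ h5
    intro ε' hε'
    refine (h ε' hε').mono fun X hX => hX.trans ?_
    exact cn_le fun a ha hb => key X a ha hb

/-- **Every dense set realises every pattern.** -/
theorem finU (K : Type) [Field K] [NumberField K] [IsCyclotomicExtension {3} ℚ K]
    (r : 𝓞 K) (hr : FamO r) (h1 : ¬ IsOne r) (A : Set (𝓞 K)) (δ : ℝ) (hδ : 0 < δ)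
    (hA : UDG r A δ) (Φ : Set (Finset ℕ)) :
    ∃ d : ℕ → 𝓞 K, Function.Injective d ∧ (∀ i, d i ∈ A ∧ FamO (d i) ∧ SC (d i) r) ∧
      (∀ S : Finset ℕ, S.Nonempty → ¬ UO (∏ i ∈ S, d i)) ∧
      ∀ S : Finset ℕ, 2 ≤ S.card → ¬ 3 ∣ S.card → (TP (∏ i ∈ S, d i) ↔ S ∈ Φ) := by
  obtain ⟨⟨j, hj⟩, -⟩ := Pool.Agent.Y455.CTK.jex K
  have : Inhabited (𝓞 K) := ⟨0⟩
  have hlaw := lawC K j hj c9_spec.2.2.1 c9_spec.2.2.2 hr h1
  obtain ⟨d, h2, h3, h4, h5⟩ := hlaw.universal ⟨δ, hδ, (udg_iff j hj).1 hA⟩ Φ (BU K)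
  have hd : ∀ i, FamO (d i) ∧ SC (d i) r := by
    intro i
    obtain ⟨X, hX⟩ := (h3 i).2
    exact ((mem_SX j hj).1 hX).2
  have hd0 : ∀ i, d i ≠ 0 := fun i => famO_ne j (hd i).1
  refine ⟨d, h2, fun i => ⟨(h3 i).1, hd i⟩, fun S hS h => h4 S hS ?_, fun S hS hS3 => ?_⟩
  · rw [← UU_prod S d fun i _ => hd0 i]
    exact uo_mem (prod_ne_zero_iff.2 fun i _ => hd0 i) h
  · obtain ⟨z, c, hz, hc, hs, he⟩ := famO_prod j hj S d fun i _ => (hd i).1
    have h6 := SC_prod (r := r) j hj S d fun i _ => (hd i).2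
    have h7 := tp_iff j hz hc he (fun h => not_isOne_pow j hj hr h1 hS3
      ((hs.symm.trans h6).isOne.1 h))
    rw [h7, UU_prod S d fun i _ => hd0 i]
    exact h5 S hS hS3

/-- **The formula for products.** -/
theorem finP (K : Type) [Field K] [NumberField K] [IsCyclotomicExtension {3} ℚ K]
    (n : ℕ) (a : Fin n → 𝓞 K) (ha : ∀ i, FamO (a i)) (h1 : ¬ IsOne (∏ i, a i))
    (h2 : ¬ UO (∏ i, a i)) :
    (∃ D : 𝓞 K, ((∃ y : 𝓞 K, y ≠ 0 ∧ ∏ i, a i = D * y ^ 3) ∧ FamO D ∧ ¬ IsUnit D ∧ Law3 D) ∧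
      (Tri D ↔ Tri (∏ i, a i))) ∧ (TP (∏ i, a i) ↔ Tri (∏ i, a i)) := by
  obtain ⟨⟨j, hj⟩, -⟩ := Pool.Agent.Y455.CTK.jex K
  have htw : ∀ (b : Fin n → 𝓞 K) (t : Fin 1), tw (fun _ => 1) (fun _ _ => 1) b t = ∏ i, b i := by
    intro b t
    unfold tw
    simp only [one_mul, pow_one]
  have hn : n ≠ 0 := by
    rintro rfl
    apply h1
    rw [Fin.prod_univ_zero]
    exact isOne_iff.2 (SC.refl (1 : 𝓞 K))
  obtain ⟨-, -, -, h4⟩ := finJ K (m := n) (q := 1) (fun _ => 1) (fun _ _ => 1)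
    (fun _ => famO_one) (fun t => ⟨⟨0, Nat.pos_of_ne_zero hn⟩, by norm_num⟩)
    (fun t t' h => absurd (Subsingleton.elim t t') h) a ha (fun t => by rw [htw]; exact h1)
  have h5 := h4 a (fun i => ⟨ha i, SC.refl (a i)⟩) 0
  rw [htw] at h5
  rcases h5 with h6 | ⟨D, x, hx, hD, hF, hL, hT⟩
  · exact absurd h6 h2
  · refine ⟨⟨D, ⟨⟨x, hx, hD⟩, hF.2, hF.1, hL⟩, hT.symm⟩, ?_, fun h =>
      ⟨D, ⟨⟨x, hx, hD⟩, hF.2, hF.1, hL⟩, hT.1 h⟩⟩
    rintro ⟨D', ⟨⟨y, hy, hD'⟩, hA', -, -⟩, hf⟩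
    have h7 : D' = D := famO_unique j hA' hF.2 hy hx (by rw [← hD']; exact hD)
    rw [h7] at hf
    exact hT.2 hf

/-- **The number of the elements of the class.** -/
theorem finN (K : Type) [Field K] [NumberField K] [IsCyclotomicExtension {3} ℚ K]
    (r : 𝓞 K) (hr : FamO r) :
    (∀ X, (BB r X).Finite) ∧ ∃ (C : ℝ) (X₀ : ℕ), 0 < C ∧ ∀ X : ℕ, X₀ ≤ X →
      C * (X : ℝ) ≤ ((BB r X).ncard : ℝ) := by
  obtain ⟨⟨j, hj⟩, -⟩ := Pool.Agent.Y455.CTK.jex K
  refine ⟨SXs_fin j hj r, ?_⟩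
  obtain ⟨⟨C, X₀, hC, h2⟩, -⟩ := finJ K (m := 1) (q := 0) (fun t => t.elim0) (fun t => t.elim0)
    (fun t => t.elim0) (fun t => t.elim0) (fun t => t.elim0) (fun _ => r) (fun _ => hr)
    (fun t => t.elim0)
  refine ⟨C, X₀, hC, fun X hX => ?_⟩
  have h3 := h2 X hX
  have h4 := num_one j hj r X (fun _ => True)
  have e1 : (fun a => InC (fun _ : Fin 1 => r) a ∧ True) = InC (fun _ : Fin 1 => r) := by
    funext a
    simp
  rw [e1] at h4
  rw [pow_one, h4] at h3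
  have e2 : BB r X = ((SX r X : Finset (𝓞 K)) : Set (𝓞 K)) := by
    ext a
    rw [mem_coe, mem_SX j hj]
    exact Iff.rfl
  refine h3.trans ?_
  rw [e2, Set.ncard_coe_finset]
  exact cn_le_card _ _

end Run7.h460.JL
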