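import Pool.Agent.Run7.h460.JL.Mix

/-!
# Every set of positive upper density realises every pattern: version modulo cubes

The analogue of the file `Run7/h428/Uni.lean` of helper428 for an arbitrary commutative group `V`
instead of the masks. `U D ∈ V`, `G` is a property of the elements of `V`, and for finitely many
allowed `v ∈ V` the events `G (U D + v)` are asymptotically independent with probability `c`. The sum
of the `U d_i`, `i ∈ T`, is allowed if `|T| + 1` is prime to `3`. Then every set `A` of positive upper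
density contains different `d_0, d_1, ...` such that for all finite sets `T` with at least two elements
and `|T|` prime to `3` the sum of the `U d_i`, `i ∈ T`, has the property `G` if and only if `T ∈ Φ`, for
a given set `Φ` of finite sets.
-/

set_option autoImplicit false

open scoped Classical

namespace Run7.h460.JL.Uni

open Finset Filter Topology
open Run7.h460.JL.Mix

variable {α V : Type*} [AddCommGroup V]

/-- the event with the pattern `W` for the elements of `R`, translated by `m` -/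
def Ev (U : α → V) (G : V → Prop) (m : V) (R W : Finset V) : Set α :=
  {D | ∀ w ∈ R, (G (U D + (m + w)) ↔ w ∈ W)}

/-- the law -/
structure Law (S : ℕ → Finset α) (U : α → V) (G : V → Prop) (ok : V → Prop) (c : ℝ) : Prop where
  inf : Tendsto (fun X => ((S X).card : ℝ)) atTop atTop
  c0 : 0 < c
  c1 : c < 1
  inj : ∀ X X' D D', D ∈ S X → D' ∈ S X' → U D = U D' → D = D'
  okW : ∀ (T : Finset ℕ) (u : ℕ → V), (∀ i ∈ T, ∃ X, ∃ D ∈ S X, U D = u i) →
    ¬ 3 ∣ T.card + 1 → ok (∑ i ∈ T, u i)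
  law : ∀ P Q : Finset V, (∀ v ∈ P, ok v) → (∀ v ∈ Q, ok v) → Disjoint P Q →
    Tendsto (fun X => cn (S X) {D | (∀ v ∈ P, G (U D + v)) ∧ ∀ v ∈ Q, ¬ G (U D + v)} /
      ((S X).card : ℝ)) atTop (𝓝 (c ^ P.card * (1 - c) ^ Q.card))

variable {S : ℕ → Finset α} {U : α → V} {G : V → Prop} {ok : V → Prop} {c : ℝ}

theorem Law.ne (h : Law S U G ok c) : ∀ᶠ X in atTop, (S X).Nonempty := by
  filter_upwards [h.inf.eventually_gt_atTop 0] with X hX
  rw [← card_pos]
  exact_mod_cast hX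

/-- the probability of a pattern -/
noncomputable def pr (c : ℝ) (R W : Finset V) : ℝ := c ^ W.card * (1 - c) ^ (R \ W).card

theorem Law.pr_pos (h : Law S U G ok c) (R W : Finset V) : 0 < pr c R W :=
  mul_pos (pow_pos h.c0 _) (pow_pos (by linarith [h.c1]) _)

theorem Law.pr_le (h : Law S U G ok c) (R W : Finset V) : pr c R W ≤ 1 :=
  mul_le_one₀ (pow_le_one₀ h.c0.le h.c1.le) (pow_nonneg (by linarith [h.c1]) _)
    (pow_le_one₀ (by linarith [h.c1]) (by linarith [h.c0]))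

/-- the translates of a set -/
noncomputable def tr (m : V) (R : Finset V) : Finset V := R.image fun w => m + w

theorem card_tr (m : V) (R : Finset V) : (tr m R).card = R.card :=
  card_image_of_injective _ fun _ _ h => add_left_cancel h

theorem mem_tr {m x : V} {R : Finset V} : x ∈ tr m R ↔ ∃ w ∈ R, m + w = x :=
  mem_image

theorem Ev_eq {m : V} {R W : Finset V} (hW : W ⊆ R) : Ev U G m R W =
    {D | (∀ x ∈ tr m W, G (U D + x)) ∧ ∀ x ∈ tr m (R \ W), ¬ G (U D + x)} := by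
  ext D
  constructor
  · intro h
    refine ⟨fun x hx => ?_, fun x hx => ?_⟩
    · obtain ⟨w, hw, rfl⟩ := mem_tr.1 hx
      exact (h w (hW hw)).2 hw
    · obtain ⟨w, hw, rfl⟩ := mem_tr.1 hx
      have hw' := mem_sdiff.1 hw
      exact fun h1 => hw'.2 ((h w hw'.1).1 h1)
  · rintro ⟨h1, h2⟩ w hw
    by_cases hwV : w ∈ W
    · exact ⟨fun _ => hwV, fun _ => h1 _ (mem_tr.2 ⟨w, hwV, rfl⟩)⟩
    · exact ⟨fun h3 => absurd h3 (h2 _ (mem_tr.2 ⟨w, mem_sdiff.2 ⟨hw, hwV⟩, rfl⟩)),
        fun h3 => absurd h3 hwV⟩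

theorem Law.ev (h : Law S U G ok c) {m : V} {R W : Finset V} (hR : ∀ w ∈ R, ok (m + w))
    (hW : W ⊆ R) :
    Tendsto (fun X => cn (S X) (Ev U G m R W) / ((S X).card : ℝ)) atTop (𝓝 (pr c R W)) := by
  have h1 := h.law (tr m W) (tr m (R \ W)) (fun x hx => by
    obtain ⟨w, hw, rfl⟩ := mem_tr.1 hx
    exact hR w (hW hw)) (fun x hx => by
    obtain ⟨w, hw, rfl⟩ := mem_tr.1 hx
    exact hR w (mem_sdiff.1 hw).1) (by
    rw [disjoint_left]
    intro x hx hx'
    obtain ⟨w, hw, rfl⟩ := mem_tr.1 hx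
    obtain ⟨w', hw', he⟩ := mem_tr.1 hx'
    have := add_left_cancel he
    rw [this] at hw'
    exact (mem_sdiff.1 hw').2 hw)
  rw [card_tr, card_tr] at h1
  rw [Ev_eq hW]
  exact h1

theorem Law.ev2 (h : Law S U G ok c) {m m' : V} {R W : Finset V} (hR : ∀ w ∈ R, ok (m + w))
    (hR' : ∀ w ∈ R, ok (m' + w)) (hW : W ⊆ R) (hmm : ∀ w ∈ R, ∀ w' ∈ R, m + w ≠ m' + w') :
    Tendsto (fun X => cn (S X) (Ev U G m R W ∩ Ev U G m' R W) / ((S X).card : ℝ)) atTop
      (𝓝 (pr c R W * pr c R W)) := by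
  have hd : ∀ A B : Finset V, A ⊆ R → B ⊆ R → Disjoint (tr m A) (tr m' B) := by
    intro A B hA hB
    rw [disjoint_left]
    intro x hx hx'
    obtain ⟨w, hw, rfl⟩ := mem_tr.1 hx
    obtain ⟨w', hw', he⟩ := mem_tr.1 hx'
    exact hmm w (hA hw) w' (hB hw') he.symm
  have hs : ∀ n : V, Disjoint (tr n W) (tr n (R \ W)) := by
    intro n
    rw [disjoint_left]
    intro x hx hx'
    obtain ⟨w, hw, rfl⟩ := mem_tr.1 hx
    obtain ⟨w', hw', he⟩ := mem_tr.1 hx'
    have := add_left_cancel he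
    rw [this] at hw'
    exact (mem_sdiff.1 hw').2 hw
  have hadm : ∀ n : V, (∀ w ∈ R, ok (n + w)) → ∀ A : Finset V, A ⊆ R → ∀ x ∈ tr n A, ok x := by
    intro n hn A hA x hx
    obtain ⟨w, hw, rfl⟩ := mem_tr.1 hx
    exact hn w (hA hw)
  have hQ : R \ W ⊆ R := sdiff_subset
  have h1 := h.law (tr m W ∪ tr m' W) (tr m (R \ W) ∪ tr m' (R \ W)) (fun x hx => by
      rcases mem_union.1 hx with h1 | h1
      · exact hadm m hR W hW x h1
      · exact hadm m' hR' W hW x h1) (fun x hx => by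
      rcases mem_union.1 hx with h1 | h1
      · exact hadm m hR _ hQ x h1
      · exact hadm m' hR' _ hQ x h1) (by
      rw [disjoint_union_left, disjoint_union_right, disjoint_union_right]
      exact ⟨⟨hs m, hd W _ hW hQ⟩, ⟨(hd _ W hQ hW).symm, hs m'⟩⟩)
  rw [card_union_of_disjoint (hd W W hW hW), card_union_of_disjoint (hd _ _ hQ hQ), card_tr,
    card_tr, card_tr, card_tr] at h1
  have e1 : c ^ (W.card + W.card) * (1 - c) ^ ((R \ W).card + (R \ W).card) =
      pr c R W * pr c R W := by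
    unfold pr
    ring
  rw [e1] at h1
  have e2 : Ev U G m R W ∩ Ev U G m' R W =
      {D | (∀ x ∈ tr m W ∪ tr m' W, G (U D + x)) ∧
        ∀ x ∈ tr m (R \ W) ∪ tr m' (R \ W), ¬ G (U D + x)} := by
    rw [Ev_eq hW, Ev_eq hW]
    ext D
    simp only [Set.mem_inter_iff, Set.mem_ofPred_eq, mem_union]
    constructor
    · rintro ⟨⟨a1, a2⟩, a3, a4⟩
      exact ⟨fun x hx => hx.elim (a1 x) (a3 x), fun x hx => hx.elim (a2 x) (a4 x)⟩
    · rintro ⟨a1, a2⟩
      exact ⟨⟨fun x hx => a1 x (Or.inl hx), fun x hx => a2 x (Or.inl hx)⟩,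
        fun x hx => a1 x (Or.inr hx), fun x hx => a2 x (Or.inr hx)⟩
  rw [e2]
  exact h1

/-- **Mixing**: for all but finitely many `m` -/
theorem Law.finite_exc (h : Law S U G ok c) {R W : Finset V} (hW : W ⊆ R) {A : Set α} {δ : ℝ}
    (hA : UD S A δ) {ε : ℝ} (hε : 0 < ε) :
    {m : V | (∀ w ∈ R, ok (m + w)) ∧ ¬ UD S (A ∩ Ev U G m R W) (pr c R W * δ - ε)}.Finite := by
  by_contra hinf
  set E := {m : V | (∀ w ∈ R, ok (m + w)) ∧ ¬ UD S (A ∩ Ev U G m R W) (pr c R W * δ - ε)} with hE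
  have hinf : E.Infinite := hinf
  obtain ⟨f, hf1, hf2⟩ := exists_seq_of_forall_finset_exists (fun m => m ∈ E)
    (fun m m' : V => ∀ w ∈ R, ∀ w' ∈ R, m + w ≠ m' + w') (fun s _ => by
      obtain ⟨y, hy, hyF⟩ := hinf.exists_notMem_finset
        (s.biUnion fun x => (R ×ˢ R).image fun q => (x + q.1) - q.2)
      refine ⟨y, hy, fun x hx w hw w' hw' he => hyF ?_⟩
      rw [mem_biUnion]
      refine ⟨x, hx, mem_image.2 ⟨(w, w'), mem_product.2 ⟨hw, hw'⟩, ?_⟩⟩
      show (x + w) - w' = y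
      rw [he, add_sub_cancel_right])
  have hsep : ∀ i j, i ≠ j → ∀ w ∈ R, ∀ w' ∈ R, f i + w ≠ f j + w' := by
    intro i j hij w hw w' hw'
    rcases lt_or_gt_of_ne hij with h1 | h1
    · exact hf2 i j h1 w hw w' hw'
    · exact (hf2 j i h1 w' hw' w hw).symm
  obtain ⟨i, hi⟩ := mix h.ne (P := fun i => Ev U G (f i) R W) (h.pr_pos R W).le (h.pr_le R W)
    (fun i => h.ev (hf1 i).1 hW)
    (fun i j hij => h.ev2 (hf1 i).1 (hf1 j).1 hW (hsep i j hij)) hA hε
  exact (hf1 i).2 hi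

/-- positive upper density -/
def Large (S : ℕ → Finset α) (A : Set α) : Prop := ∃ δ : ℝ, 0 < δ ∧ UD S A δ

theorem Large.mono {A B : Set α} (h : Large S A) (hAB : A ⊆ B) : Large S B := by
  obtain ⟨δ, h1, h2⟩ := h
  exact ⟨δ, h1, h2.mono hAB⟩

theorem Law.large_exc (h : Law S U G ok c) {R W : Finset V} (hW : W ⊆ R) {A : Set α}
    (hA : Large S A) :
    {m : V | (∀ w ∈ R, ok (m + w)) ∧ ¬ Large S (A ∩ Ev U G m R W)}.Finite := by
  obtain ⟨δ, h1, h2⟩ := hA
  have hp := h.pr_pos R W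
  refine (h.finite_exc hW h2 (ε := pr c R W * δ / 2) (by positivity)).subset ?_
  rintro m ⟨h3, h4⟩
  refine ⟨h3, fun h5 => h4 ⟨_, ?_, h5⟩⟩
  have : 0 < pr c R W * δ := by positivity
  linarith

theorem Law.large_inf (h : Law S U G ok c) {A : Set α} (hA : Large S A) (F : Finset α) :
    ∃ D ∈ A, (∃ X, D ∈ S X) ∧ D ∉ F := by
  obtain ⟨δ, h1, h2⟩ := hA
  have h3 := (h2 (δ / 2) (by positivity)).and_eventually
    (h.inf.eventually_gt_atTop ((F.card : ℝ) / (δ / 2)))
  obtain ⟨X, h4, h5⟩ := h3.exists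
  rw [div_lt_iff₀ (by positivity)] at h5
  by_contra hcon
  push Not at hcon
  have h6 : cn (S X) A ≤ (F.card : ℝ) := by
    unfold cn
    exact_mod_cast card_le_card (fun D hD => by
      rw [mem_filter] at hD
      exact hcon D hD.2 ⟨X, hD.1⟩)
  have h7 : (δ - δ / 2) * ((S X).card : ℝ) = ((S X).card : ℝ) * (δ / 2) := by ring
  linarith

/-- the pattern of the first `n` elements -/
def Pt (U : α → V) (G : V → Prop) (n : ℕ) (u : ℕ → V) (Z : Finset (Finset ℕ)) : Set α :=
  {D | ∀ T ⊆ range n, T.Nonempty → ¬ 3 ∣ T.card + 1 → (G (U D + ∑ i ∈ T, u i) ↔ T ∈ Z)}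

/-- the induction hypothesis -/
structure Inv (S : ℕ → Finset α) (U : α → V) (G : V → Prop) (A : Set α) (n : ℕ) (u : ℕ → V) :
    Prop where
  ad : ∀ i < n, ∃ X, ∃ D ∈ S X, U D = u i
  inj : ∀ T ⊆ range n, ∀ T' ⊆ range n, ∑ i ∈ T, u i = ∑ i ∈ T', u i → T = T'
  lg : ∀ Z : Finset (Finset ℕ), Large S (A ∩ Pt U G n u Z)

theorem Inv.congr {A : Set α} {n : ℕ} {u v : ℕ → V} (h : Inv S U G A n u)
    (huv : ∀ i < n, u i = v i) : Inv S U G A n v := by
  have hW : ∀ T ⊆ range n, ∑ i ∈ T, u i = ∑ i ∈ T, v i := fun T hT =>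
    sum_congr rfl fun i hi => huv i (mem_range.1 (hT hi))
  refine ⟨fun i hi => huv i hi ▸ h.ad i hi, fun T hT T' hT' he => ?_, fun Z => ?_⟩
  · rw [← hW T hT, ← hW T' hT'] at he
    exact h.inj T hT T' hT' he
  · refine (h.lg Z).mono (Set.inter_subset_inter_right A fun D hD T hT hne h3 => ?_)
    rw [← hW T hT]
    exact hD T hT hne h3

theorem Law.step (h : Law S U G ok c) {A : Set α} {n : ℕ} {u : ℕ → V}
    (hI : Inv S U G A n u) (Z₀ : Finset (Finset ℕ)) (F : Finset α) :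
    ∃ D ∈ A, (∃ X, D ∈ S X) ∧ D ∉ F ∧ D ∈ Pt U G n u Z₀ ∧
      Inv S U G A (n + 1) (Function.update u n (U D)) := by
  set RA : Finset V := (range n).powerset.image fun T => ∑ i ∈ T, u i with hRA
  set QT : Finset (Finset ℕ) := (range n).powerset.filter fun T => ¬ 3 ∣ T.card + 2 with hQT
  set R : Finset V := QT.image fun T => ∑ i ∈ T, u i with hRd
  set PP := (range n).powerset.powerset with hPP
  set PQ := QT.powerset with hPQ
  have hV : ∀ w ∈ PQ, (w.image fun T => ∑ i ∈ T, u i) ⊆ R := fun w hw =>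
    image_subset_image (mem_powerset.1 hw)
  have hnr : ∀ T ⊆ range n, n ∉ T := fun T hT h1 => lt_irrefl n (mem_range.1 (hT h1))
  -- the exceptional elements
  have hfin : (⋃ v ∈ PP, ⋃ w ∈ PQ, {m : V | (∀ x ∈ R, ok (m + x)) ∧
      ¬ Large S ((A ∩ Pt U G n u v) ∩ Ev U G m R (w.image fun T => ∑ i ∈ T, u i))}).Finite := by
    refine Set.Finite.biUnion PP.finite_toSet fun v _ =>
      Set.Finite.biUnion PQ.finite_toSet fun w hw => ?_
    exact h.large_exc (hV w hw) (hI.lg v)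
  set EX := ⋃ v ∈ PP, ⋃ w ∈ PQ, {m : V | (∀ x ∈ R, ok (m + x)) ∧
      ¬ Large S ((A ∩ Pt U G n u v) ∩ Ev U G m R (w.image fun T => ∑ i ∈ T, u i))} with hEX
  have hfin2 : (EX ∪ (((RA ×ˢ RA).image fun q => q.1 - q.2 : Finset V) : Set V)).Finite :=
    hfin.union (finite_toSet _)
  have hfin3 : {D : α | (∃ X, D ∈ S X) ∧ U D ∈ EX ∪ (((RA ×ˢ RA).image fun q => q.1 - q.2 :
      Finset V) : Set V)}.Finite := by
    refine Set.Finite.of_injOn (f := U) (fun D hD => hD.2) ?_ hfin2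
    rintro D ⟨⟨X, hX⟩, -⟩ D' ⟨⟨X', hX'⟩, -⟩ he
    exact h.inj X X' D D' hX hX' he
  obtain ⟨D, hD1, ⟨X, hX⟩, hD3⟩ := h.large_inf (hI.lg Z₀) (hfin3.toFinset ∪ F)
  rw [mem_union, not_or, Set.Finite.mem_toFinset] at hD3
  have hDe : U D ∉ EX ∪ (((RA ×ˢ RA).image fun q => q.1 - q.2 : Finset V) : Set V) :=
    fun h1 => hD3.1 ⟨⟨X, hX⟩, h1⟩
  have hD4 : U D ∉ EX := fun h1 => hDe (Or.inl h1)
  have hD5 : ∀ x ∈ RA, ∀ y ∈ RA, x - y ≠ U D := fun x hx y hy he => hDe (Or.inr (by
    rw [mem_coe, mem_image]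
    exact ⟨(x, y), mem_product.2 ⟨hx, hy⟩, he⟩))
  refine ⟨D, hD1.1, ⟨X, hX⟩, hD3.2, hD1.2, ?_⟩
  have hW1 : ∀ T ⊆ range n, ∑ i ∈ T, Function.update u n (U D) i = ∑ i ∈ T, u i := fun T hT =>
    sum_congr rfl fun i hi => Function.update_of_ne (fun h1 : i = n => hnr T hT (h1 ▸ hi)) _ _
  have hW2 : ∀ T ⊆ range n, ∑ i ∈ insert n T, Function.update u n (U D) i =
      U D + ∑ i ∈ T, u i := by
    intro T hT
    rw [sum_insert (hnr T hT), Function.update_self, hW1 T hT]
  have hadU : ∀ i < n + 1, ∃ X, ∃ D' ∈ S X, U D' = Function.update u n (U D) i := by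
    intro i hi
    rcases Nat.lt_succ_iff_lt_or_eq.1 hi with h1 | h1
    · rw [Function.update_of_ne h1.ne]
      exact hI.ad i h1
    · rw [h1, Function.update_self]
      exact ⟨X, D, hX, rfl⟩
  have hokD : ∀ x ∈ R, ok (U D + x) := by
    intro x hx
    obtain ⟨T, hT, rfl⟩ := mem_image.1 hx
    obtain ⟨hT1, hT2⟩ := mem_filter.1 hT
    rw [mem_powerset] at hT1
    have h2 := h.okW (insert n T) (Function.update u n (U D)) (fun i hi => by
      refine hadU i ?_
      rcases mem_insert.1 hi with h3 | h3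
      · omega
      · have := mem_range.1 (hT1 h3)
        omega) (by
      rw [card_insert_of_notMem (hnr T hT1)]
      exact hT2)
    rw [hW2 T hT1] at h2
    exact h2
  have hsplit : ∀ T ⊆ range (n + 1), (T ⊆ range n) ∨ ∃ T' ⊆ range n, T = insert n T' := by
    intro T hT
    by_cases hn : n ∈ T
    · right
      refine ⟨T.erase n, fun i hi => ?_, (insert_erase hn).symm⟩
      rw [mem_erase] at hi
      have := mem_range.1 (hT hi.2)
      exact mem_range.2 (by omega)
    · left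
      intro i hi
      have h1 := mem_range.1 (hT hi)
      have h2 : i ≠ n := fun h2 => hn (h2 ▸ hi)
      exact mem_range.2 (by omega)
  have hRm : ∀ T ⊆ range n, ∑ i ∈ T, u i ∈ RA := fun T hT =>
    mem_image.2 ⟨T, mem_powerset.2 hT, rfl⟩
  refine ⟨hadU, fun T hT T' hT' he => ?_, fun Z => ?_⟩
  · rcases hsplit T hT with h1 | ⟨T1, h1, rfl⟩
    · rcases hsplit T' hT' with h2 | ⟨T2, h2, rfl⟩
      · rw [hW1 T h1, hW1 T' h2] at he
        exact hI.inj T h1 T' h2 he
      · rw [hW1 T h1, hW2 T2 h2] at he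
        refine absurd ?_ (hD5 _ (hRm T h1) _ (hRm T2 h2))
        rw [he, add_sub_cancel_right]
    · rcases hsplit T' hT' with h2 | ⟨T2, h2, rfl⟩
      · rw [hW2 T1 h1, hW1 T' h2] at he
        refine absurd ?_ (hD5 _ (hRm T' h2) _ (hRm T1 h1))
        rw [← he, add_sub_cancel_right]
      · rw [hW2 T1 h1, hW2 T2 h2] at he
        rw [hI.inj T1 h1 T2 h2 (add_left_cancel he)]
  · set v : Finset (Finset ℕ) := (range n).powerset.filter fun T => T ∈ Z with hv
    set w : Finset (Finset ℕ) := QT.filter fun T => insert n T ∈ Z with hw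
    have hvP : v ∈ PP := mem_powerset.2 (filter_subset _ _)
    have hwP : w ∈ PQ := mem_powerset.2 (filter_subset _ _)
    have hlarge : Large S ((A ∩ Pt U G n u v) ∩
        Ev U G (U D) R (w.image fun T => ∑ i ∈ T, u i)) := by
      by_contra hcon
      apply hD4
      rw [hEX]
      simp only [Set.mem_iUnion]
      exact ⟨v, hvP, w, hwP, hokD, hcon⟩
    refine hlarge.mono ?_
    rintro D' ⟨⟨a1, a2⟩, a3⟩
    refine ⟨a1, fun T hT hne h3 => ?_⟩
    rcases hsplit T hT with h1 | ⟨T1, h1, rfl⟩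
    · rw [hW1 T h1, a2 T h1 hne h3, hv, mem_filter, mem_powerset, and_iff_right h1]
    · rw [card_insert_of_notMem (hnr T1 h1)] at h3
      have hT1 : T1 ∈ QT := mem_filter.2 ⟨mem_powerset.2 h1, h3⟩
      rw [hW2 T1 h1, a3 _ (mem_image.2 ⟨T1, hT1, rfl⟩), mem_image]
      constructor
      · rintro ⟨T2, h2, he⟩
        rw [hw, mem_filter] at h2
        have h4 := mem_powerset.1 (mem_filter.1 h2.1).1
        rw [← hI.inj T2 h4 T1 h1 he]
        exact h2.2
      · intro h2
        exact ⟨T1, mem_filter.2 ⟨hT1, h2⟩, rfl⟩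

/-- the conditions on the next element -/
structure Next (S : ℕ → Finset α) (U : α → V) (G : V → Prop) (A : Set α) (Φ : Set (Finset ℕ))
    (B : Finset V) (n : ℕ) (d : ℕ → α) (D : α) : Prop where
  mem : D ∈ A
  cls : ∃ X, D ∈ S X
  ne : ∀ i < n, d i ≠ D
  pat : ∀ T ⊆ range n, T.Nonempty → ¬ 3 ∣ T.card + 1 →
    (G (U D + ∑ i ∈ T, U (d i)) ↔ insert n T ∈ Φ)
  bad : ∀ T ⊆ range n, U D + ∑ i ∈ T, U (d i) ∉ B
  inv : Inv S U G A (n + 1) (Function.update (fun i => U (d i)) n (U D))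

theorem Next.congr {A : Set α} {Φ : Set (Finset ℕ)} {B : Finset V} {n : ℕ} {d e : ℕ → α} {D : α}
    (h : Next S U G A Φ B n d D) (hde : ∀ i < n, d i = e i) : Next S U G A Φ B n e D := by
  have hs : ∀ T ⊆ range n, ∑ i ∈ T, U (e i) = ∑ i ∈ T, U (d i) := fun T hT =>
    sum_congr rfl fun i hi => by rw [hde i (mem_range.1 (hT hi))]
  refine ⟨h.mem, h.cls, fun i hi => hde i hi ▸ h.ne i hi, fun T hT hne h3 => ?_, fun T hT => ?_, ?_⟩
  · rw [hs T hT]
    exact h.pat T hT hne h3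
  · rw [hs T hT]
    exact h.bad T hT
  · refine h.inv.congr fun i hi => ?_
    rcases Nat.lt_succ_iff_lt_or_eq.1 hi with h1 | h1
    · rw [Function.update_of_ne h1.ne, Function.update_of_ne h1.ne, hde i h1]
    · rw [h1, Function.update_self, Function.update_self]

theorem Law.exists_next (h : Law S U G ok c) {A : Set α} {n : ℕ} {d : ℕ → α}
    (hI : Inv S U G A n fun i => U (d i)) (Φ : Set (Finset ℕ)) (B : Finset V) :
    ∃ D, Next S U G A Φ B n d D := by
  have hfin : {D : α | (∃ X, D ∈ S X) ∧ U D ∈ (((B ×ˢ (range n).powerset).image fun q =>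
      q.1 - ∑ i ∈ q.2, U (d i) : Finset V) : Set V)}.Finite := by
    refine Set.Finite.of_injOn (f := U) (fun D hD => hD.2) ?_ (finite_toSet _)
    rintro D ⟨⟨X, hX⟩, -⟩ D' ⟨⟨X', hX'⟩, -⟩ he
    exact h.inj X X' D D' hX hX' he
  obtain ⟨D, h1, h2, h3, h4, h5⟩ := h.step hI ((range n).powerset.filter fun T => insert n T ∈ Φ)
    ((range n).image d ∪ hfin.toFinset)
  rw [mem_union, not_or, Set.Finite.mem_toFinset] at h3
  refine ⟨D, h1, h2, fun i hi he => h3.1 (mem_image.2 ⟨i, mem_range.2 hi, he⟩),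
    fun T hT hne h6 => ?_, fun T hT hB => h3.2 ⟨h2, ?_⟩, h5⟩
  · rw [h4 T hT hne h6, mem_filter, mem_powerset, and_iff_right hT]
  · rw [mem_coe, mem_image]
    exact ⟨(U D + ∑ i ∈ T, U (d i), T), mem_product.2 ⟨hB, mem_powerset.2 hT⟩,
      add_sub_cancel_right _ _⟩

section seq

variable [Inhabited α]

/-- extension of a finite sequence -/
def ext (n : ℕ) (f : Fin n → α) : ℕ → α := fun i => if h : i < n then f ⟨i, h⟩ else default

/-- the sequence -/
noncomputable def dd (S : ℕ → Finset α) (U : α → V) (G : V → Prop) (A : Set α)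
    (Φ : Set (Finset ℕ)) (B : Finset V) (n : ℕ) : α :=
  if h : ∃ D, Next S U G A Φ B n (ext n fun i : Fin n => dd S U G A Φ B i) D then h.choose
  else default
termination_by n
decreasing_by all_goals exact i.2

theorem Law.dd_inv (h : Law S U G ok c) {A : Set α} (hA : Large S A) (Φ : Set (Finset ℕ))
    (B : Finset V) (n : ℕ) : Inv S U G A n (fun i => U (dd S U G A Φ B i)) ∧
      Next S U G A Φ B n (dd S U G A Φ B) (dd S U G A Φ B n) := by
  have key : ∀ n, Inv S U G A n (fun i => U (dd S U G A Φ B i)) →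
      Next S U G A Φ B n (dd S U G A Φ B) (dd S U G A Φ B n) := by
    intro n hI
    have he : ∀ i < n, (ext n fun i : Fin n => dd S U G A Φ B i) i = dd S U G A Φ B i := by
      intro i hi
      unfold ext
      rw [dif_pos hi]
    have h1 : ∃ D, Next S U G A Φ B n (ext n fun i : Fin n => dd S U G A Φ B i) D :=
      h.exists_next (hI.congr fun i hi => by rw [he i hi]) Φ B
    have h2 : Next S U G A Φ B n (ext n fun i : Fin n => dd S U G A Φ B i)
        (dd S U G A Φ B n) := by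
      have h3 : dd S U G A Φ B n = h1.choose := by
        rw [dd, dif_pos h1]
      rw [h3]
      exact h1.choose_spec
    exact h2.congr he
  suffices hs : ∀ n, Inv S U G A n (fun i => U (dd S U G A Φ B i)) from
    ⟨hs n, key n (hs n)⟩
  intro n
  induction n with
  | zero =>
    refine ⟨fun i hi => absurd hi (Nat.not_lt_zero i), fun T hT T' hT' _ => ?_, fun Z => ?_⟩
    · rw [range_zero, subset_empty] at hT hT'
      rw [hT, hT']
    · refine hA.mono fun D hD => ⟨hD, fun T hT hne => ?_⟩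
      rw [range_zero, subset_empty] at hT
      exact absurd hne (hT ▸ not_nonempty_empty)
  | succ n ih =>
    refine (key n ih).inv.congr fun i _ => ?_
    by_cases h1 : i = n
    · rw [h1, Function.update_self]
    · rw [Function.update_of_ne h1]

/-- **Every set of positive upper density realises every pattern.** -/
theorem Law.universal (h : Law S U G ok c) {A : Set α} (hA : Large S A) (Φ : Set (Finset ℕ))
    (B : Finset V) :
    ∃ d : ℕ → α, Function.Injective d ∧ (∀ i, d i ∈ A ∧ ∃ X, d i ∈ S X) ∧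
      (∀ T : Finset ℕ, T.Nonempty → ∑ i ∈ T, U (d i) ∉ B) ∧
      ∀ T : Finset ℕ, 2 ≤ T.card → ¬ 3 ∣ T.card → (G (∑ i ∈ T, U (d i)) ↔ T ∈ Φ) := by
  have hsub : ∀ (T : Finset ℕ) (hne : T.Nonempty), T.erase (T.max' hne) ⊆ range (T.max' hne) := by
    intro T hne i hi
    rw [mem_erase] at hi
    have : i ≤ T.max' hne := le_max' T i hi.2
    exact mem_range.2 (by omega)
  refine ⟨dd S U G A Φ B, ?_, fun i =>
    ⟨(h.dd_inv hA Φ B i).2.mem, (h.dd_inv hA Φ B i).2.cls⟩, fun T hne => ?_, fun T hT h3 => ?_⟩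
  · intro i k hik
    by_contra hne
    rcases lt_or_gt_of_ne hne with h1 | h1
    · exact (h.dd_inv hA Φ B k).2.ne i h1 hik
    · exact (h.dd_inv hA Φ B i).2.ne k h1 hik.symm
  · have h1 := (h.dd_inv hA Φ B (T.max' hne)).2.bad (T.erase (T.max' hne)) (hsub T hne)
    rw [← Finset.add_sum_erase T _ (max'_mem T hne)]
    exact h1
  · have hne : T.Nonempty := by
      rw [← card_pos]
      omega
    have hnT : T.max' hne ∈ T := max'_mem T hne
    have hne' : (T.erase (T.max' hne)).Nonempty := by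
      rw [← card_pos, card_erase_of_mem hnT]
      omega
    have h1 := (h.dd_inv hA Φ B (T.max' hne)).2.pat (T.erase (T.max' hne)) (hsub T hne) hne' (by
      rw [card_erase_of_mem hnT]
      have : T.card - 1 + 1 = T.card := by omega
      rw [this]
      exact h3)
    rw [insert_erase hnT] at h1
    rw [← Finset.add_sum_erase T _ hnT]
    exact h1

end seq

end Run7.h460.JL.Uni
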