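import Pool.Agent.Run7.h460.JL.Cube2
import Pool.Agent.Run7.h460.JL.Uni

/-!
# The law for the cubic twists as an instance of the abstract law
-/

set_option autoImplicit false
set_option linter.unusedVariables false
set_option linter.unusedSectionVars false

open scoped Classical

namespace Run7.h460.JL

open Finset NumberField Filter
open Pool.Agent.Y692.QS (Ei w nr)
open Pool.Agent.Y703.XK (c9)
open Pool.Agent.Y696.CTK (Tri Law3)
open Pool.Agent.N883.FF (FamK)
open Run7.h707.TC (FamU FamO famO_iff)
open Run7.h707.TE (UO uO_iff)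
open Run7.h460.JL.Mix Run7.h460.JL.Uni

theorem eq_of_three {V : Type*} [AddCommGroup V] {a b : V} (h1 : a + (b + b) = 0)
    (h2 : b + b + b = 0) : a = b :=
  add_right_cancel (b := b + b) (by rw [h1, ← add_assoc, h2])

section
variable {K : Type} [Field K] [NumberField K]

/-- the admissible elements in the class of `r` of norm at most `X` -/
def SXs (r : 𝓞 K) (X : ℕ) : Set (𝓞 K) := {a | Algebra.norm ℤ a ≤ X ∧ FamO a ∧ SC a r}

/-- the same as a finite set -/
noncomputable def SX (r : 𝓞 K) (X : ℕ) : Finset (𝓞 K) :=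
  if h : (SXs r X).Finite then h.toFinset else ∅

/-- the property of a class modulo cubes -/
def GG (v : VV K) : Prop := ∃ z : 𝓞 K, FamK z ∧ UU z = v ∧ Tri z

/-- the allowed classes modulo cubes -/
def OK (r : 𝓞 K) (v : VV K) : Prop := ∃ b : 𝓞 K, FamO b ∧ UU b = v ∧ ¬ IsOne (b * r)

variable (j : Ei ≃+* 𝓞 K) (hj : ∀ z : Ei, Algebra.norm ℤ (j z) = nr z)

include j hj in
theorem SXs_fin (r : 𝓞 K) (X : ℕ) : (SXs r X).Finite := by
  have h : SXs r X ⊆ (fun a : Fin 1 → Ei => j (a 0)) '' SA 1 X := by
    rintro a ⟨h1, h2, -⟩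
    obtain ⟨z, rfl⟩ := j.surjective a
    exact ⟨fun _ => z, fun _ => ⟨by rw [← hj]; exact h1, (famO_iff j z).1 h2⟩, rfl⟩
  exact ((SA_fin 1 X).image _).subset h

include j hj in
theorem mem_SX {r : 𝓞 K} {X : ℕ} {a : 𝓞 K} :
    a ∈ SX r X ↔ Algebra.norm ℤ a ≤ X ∧ FamO a ∧ SC a r := by
  unfold SX
  rw [dif_pos (SXs_fin j hj r X), Set.Finite.mem_toFinset]
  exact Iff.rfl

include j hj in
theorem num_one (r : 𝓞 K) (X : ℕ) (Q : (Fin 1 → 𝓞 K) → Prop) :
    num X (fun a => InC (fun _ : Fin 1 => r) a ∧ Q a) = cn (SX r X) {D | Q fun _ => D} := by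
  unfold num cn
  have h1 : {a : Fin 1 → 𝓞 K | (∀ i, Algebra.norm ℤ (a i) ≤ X) ∧
      InC (fun _ : Fin 1 => r) a ∧ Q a} =
      (fun D : 𝓞 K => fun _ : Fin 1 => D) '' (((SX r X).filter fun D => D ∈ {D | Q fun _ => D} :
        Finset (𝓞 K)) : Set (𝓞 K)) := by
    ext a
    rw [Set.mem_image]
    constructor
    · rintro ⟨h1, h2, h3⟩
      have e : (fun _ : Fin 1 => a 0) = a := funext fun i => by rw [Subsingleton.elim i 0]
      refine ⟨a 0, ?_, e⟩
      rw [mem_coe, mem_filter, mem_SX j hj]
      refine ⟨⟨h1 0, h2 0⟩, ?_⟩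
      show Q fun _ => a 0
      rw [e]
      exact h3
    · rintro ⟨D, h1, rfl⟩
      rw [mem_coe, mem_filter, mem_SX j hj] at h1
      exact ⟨fun _ => h1.1.1, fun _ => h1.1.2, h1.2⟩
  rw [h1, Set.ncard_image_of_injective _ (fun x y h => congrFun h 0), Set.ncard_coe_finset]

include j in
theorem GG_iff {D : 𝓞 K} (hD : FamK D) : GG (UU D) ↔ Tri D := by
  constructor
  · rintro ⟨z, hz, h1, h2⟩
    have := UU_inj j ⟨hz.2.1, hz.2.2⟩ ⟨hD.2.1, hD.2.2⟩ h1
    rw [← this]
    exact h2
  · intro h
    exact ⟨D, hD, rfl, h⟩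

end

/-- **The law.** -/
theorem lawC (K : Type) [Field K] [NumberField K] [IsCyclotomicExtension {3} ℚ K]
    (j : Ei ≃+* 𝓞 K) (hj : ∀ z : Ei, Algebra.norm ℤ (j z) = nr z)
    (hc9 : 0 < c9) (hc9' : c9 < 1)
    {r : 𝓞 K} (hr : FamO r) (h1 : ¬ IsOne r) :
    Law (SX r) UU GG (OK r) c9 := by
  have hcard : ∀ X : ℕ, num X (InC (fun _ : Fin 1 => r)) = ((SX r X).card : ℝ) := by
    intro X
    have h2 := num_one j hj r X (fun _ => True)
    have e1 : (fun a => InC (fun _ : Fin 1 => r) a ∧ True) = InC (fun _ : Fin 1 => r) := by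
      funext a
      simp
    rw [e1] at h2
    rw [h2]
    unfold cn
    simp
  refine ⟨?_, hc9, hc9', ?_, ?_, ?_⟩
  · -- the number of the elements
    obtain ⟨⟨C, X₀, hC, h2⟩, -⟩ := finJ K (m := 1) (q := 0) (fun t => t.elim0) (fun t => t.elim0)
      (fun t => t.elim0) (fun t => t.elim0) (fun t => t.elim0) (fun _ => r) (fun _ => hr)
      (fun t => t.elim0)
    have h3 : Tendsto (fun X : ℕ => C * (X : ℝ)) atTop atTop :=
      tendsto_natCast_atTop_atTop.const_mul_atTop hC
    refine tendsto_atTop_mono' _ ?_ h3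
    filter_upwards [eventually_ge_atTop X₀] with X hX
    have := h2 X hX
    rw [hcard, pow_one] at this
    exact this
  · intro X X' D D' hD hD' he
    rw [mem_SX j hj] at hD hD'
    exact UU_inj j hD.2.1 hD'.2.1 he
  · intro T u hu h3
    choose! X D hD hU using hu
    have hDf : ∀ i ∈ T, FamO (D i) := fun i hi => ((mem_SX j hj).1 (hD i hi)).2.1
    obtain ⟨z, c, hz, hc, hs, he⟩ := famO_prod j hj T D hDf
    refine ⟨z, hz, ?_, ?_⟩
    · have h4 : ∀ S ⊆ T, UU (∏ i ∈ S, D i) = ∑ i ∈ S, u i := by
        intro S hS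
        induction S using Finset.induction_on with
        | empty =>
          rw [prod_empty, sum_empty, UU_of one_ne_zero]
          apply Additive.toMul.injective
          rw [toMul_ofMul, toMul_zero]
          have e : Units.mk0 ((1 : 𝓞 K) : K) (coe_ne one_ne_zero) = 1 := by
            apply Units.ext
            show ((1 : 𝓞 K) : K) = 1
            rfl
          rw [e]
          rfl
        | insert a S ha ih =>
          have h5 : ∏ i ∈ S, D i ≠ 0 := prod_ne_zero_iff.2 fun i hi =>
            famO_ne j (hDf i (hS (mem_insert_of_mem hi)))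
          rw [prod_insert ha, sum_insert ha,
            UU_mul (famO_ne j (hDf a (hS (mem_insert_self a S)))) h5,
            ih fun i hi => hS (mem_insert_of_mem hi), hU a (hS (mem_insert_self a S))]
      rw [← h4 T subset_rfl, he, UU_cube (famO_ne j hz) hc]
    · have h4 : ∀ S ⊆ T, SC (∏ i ∈ S, D i) (r ^ S.card) := by
        intro S hS
        induction S using Finset.induction_on with
        | empty =>
          rw [prod_empty, card_empty, pow_zero]
          exact SC.refl (1 : 𝓞 K)
        | insert a S ha ih =>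
          rw [prod_insert ha, card_insert_of_notMem ha, pow_succ, mul_comm (r ^ S.card)]
          exact ((mem_SX j hj).1 (hD a (hS (mem_insert_self a S)))).2.2.mul
            (ih fun i hi => hS (mem_insert_of_mem hi))
      intro hone
      have h5 : SC (z * r) (r ^ (T.card + 1)) := by
        rw [pow_succ]
        exact (hs.symm.trans (h4 T subset_rfl)).mul (SC.refl r)
      exact not_isOne_pow j hj hr h1 h3 (h5.isOne.1 hone)
  · intro P Q hP hQ hPQ
    set R := P ∪ Q with hR
    set eT := R.equivFin.symm with heT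
    have hok : ∀ t : Fin R.card, OK r (eT t : VV K) := by
      intro t
      rcases mem_union.1 (eT t).2 with h2 | h2
      · exact hP _ h2
      · exact hQ _ h2
    choose b hb hbU hb1 using hok
    have htw : ∀ (a : Fin 1 → 𝓞 K) t, tw b (fun _ _ => 1) a t = b t * a 0 := by
      intro a t
      unfold tw
      rw [Fin.prod_univ_one, pow_one]
    obtain ⟨-, h2, -, h4⟩ := finJ K (m := 1) b (fun _ _ => 1) hb
      (fun t => ⟨0, by norm_num⟩) (by
        rintro t t' htt ⟨f, hf, h3, x, hx⟩
        rcases hf with rfl | rfl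
        · have := h3 0
          norm_num at this
        · have h5 := congrArg UU hx
          have hb0 := famO_ne j (hb t)
          have hb0' := famO_ne j (hb t')
          have hx0 : x ≠ 0 := by
            rintro rfl
            rw [zero_pow three_ne_zero] at hx
            exact (mul_ne_zero hb0 (pow_ne_zero 2 hb0')) hx
          rw [pow_two, UU_mul hb0 (mul_ne_zero hb0' hb0'), UU_mul hb0' hb0'] at h5
          have h6 : UU (x ^ 3) = (0 : VV K) := by
            rw [pow_succ, pow_two, UU_mul (mul_ne_zero hx0 hx0) hx0, UU_mul hx0 hx0]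
            exact UU_add3 _
          rw [h6] at h5
          have h7 := UU_add3 (UU (b t'))
          have h8 : UU (b t) = UU (b t') := by
            exact eq_of_three h5 h7
          rw [hbU, hbU] at h8
          exact htt (eT.injective (Subtype.ext h8)))
      (fun _ => r) (fun _ => hr) (fun t => by rw [htw]; exact hb1 t)
    have h5 := h2 (fun t a => GG (UU (a 0) + (eT t : VV K))) (by
      intro a ha t hU
      rcases h4 a ha t with h6 | ⟨D, x, hx, hD, hF, hL, hT⟩
      · exact absurd h6 hU
      · have h7 : UU (a 0) + (eT t : VV K) = UU D := by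
          have hD0 := famO_ne j ⟨hF.2.1, hF.2.2⟩
          rw [← UU_cube hD0 hx, ← hD, htw, UU_mul (famO_ne j (hb t)) (famO_ne j (ha 0).1), hbU]
          exact add_comm (UU (a 0)) (eT t : VV K)
        rw [hT, ← GG_iff j hF, ← h7]) (univ.filter fun t => (eT t : VV K) ∈ P)
    have hcP : (univ.filter fun t : Fin R.card => (eT t : VV K) ∈ P).card = P.card := by
      refine card_bij (fun t _ => (eT t : VV K)) (fun t ht => (mem_filter.1 ht).2)
        (fun t _ t' _ h => eT.injective (Subtype.ext h)) fun v hv => ?_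
      refine ⟨eT.symm ⟨v, mem_union_left _ hv⟩, ?_, ?_⟩
      · rw [mem_filter, Equiv.apply_symm_apply]
        exact ⟨mem_univ _, hv⟩
      · rw [Equiv.apply_symm_apply]
    have hcR : R.card = P.card + Q.card := card_union_of_disjoint hPQ
    rw [hcP] at h5
    have hcQ : R.card - P.card = Q.card := by omega
    rw [hcQ] at h5
    refine h5.congr fun X => ?_
    rw [hcard, num_one j hj r X (fun a => ∀ t, (GG (UU (a 0) + (eT t : VV K)) ↔
      t ∈ univ.filter fun t => (eT t : VV K) ∈ P))]
    congr 2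
    ext D
    simp only [Set.mem_ofPred_eq, mem_filter, mem_univ, true_and]
    constructor
    · intro h
      refine ⟨fun v hv => ?_, fun v hv => ?_⟩
      · have h6 := h (eT.symm ⟨v, mem_union_left _ hv⟩)
        rw [Equiv.apply_symm_apply] at h6
        exact h6.2 hv
      · have h6 := h (eT.symm ⟨v, mem_union_right _ hv⟩)
        rw [Equiv.apply_symm_apply] at h6
        exact fun h7 => disjoint_left.1 hPQ (h6.1 h7) hv
    · rintro ⟨h6, h7⟩ t
      rcases mem_union.1 (eT t).2 with h8 | h8
      · exact ⟨fun _ => h8, fun _ => h6 _ h8⟩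
      · exact ⟨fun h9 => absurd h9 (h7 _ h8), fun h9 => absurd h8 (disjoint_left.1 hPQ h9)⟩

end Run7.h460.JL
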