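import Pool.Agent.Run7.h707.TF.Law

/-!
# The law for the tuples of elements with fixed factors, in the classes modulo nine

The statement of `Run7/h707/TF/Law.lean` with an additional condition `Q` on the classes of the
elements; the proof is the proof of helper707, where the condition `Q` is carried along (it only depends
on the key, like the condition that the monomials are not exceptional).
-/

set_option autoImplicit false
set_option linter.unusedVariables false
set_option linter.unusedSectionVars false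

open scoped Classical

namespace Run7.h460.JL

open Finset Filter
open NumberField
open Pool.Agent.Y692.QS (Ei w nr)
open Pool.Agent.Y715.T.RecG (Pq)
open Pool.Agent.Y699.E (ez nrm nrm_cast nrm_mul prm mem_ZB ZB prm_ne_zero prm_mul prm_one prm_prod)
open Pool.Agent.Y433.XK (pN pN_pos)
open Pool.Agent.Y703.XK (c9 S_LOW SS S_EQ S_BIL sm la bl)
open Pool.Agent.Y696.CTK (Tri)
open Pool.Agent.R419.KF (wt wt_one wt_ne el el_ne el_prm el_inj cf_el ex_pair SG mem_SG)
open Pool.Agent.N883.FF (nq ClP w_pow_inj isUnit_w nr_w_mul)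
open Pool.Agent.N883.FF.Den3 (CF small nq_mul nq_zero)
open Pool.Agent.XLK (ph fcc ky)
open Q283.T3 (gi cf)
open Q283.T3A (c_bounds)
open Run7.h707.TC (Tt mem_Tt dlt elw UC NEc uc_iff dlt_eq tt_pq eT ee Uu FamU w_red pow_prm TP mem_TP
  kyT IjT KyP YM CT CT_congr GT gt_iff nec_iff norm_key c_val cnt_eq)
open Run7.h707.TD
open Run7.h707.TF

/-! ### the class of an element -/

/-- the class of an element of `𝓞 K`, as an element of `ℤ[ω]` -/
def HCl (x : Ei) (u : ZMod 3 × ZMod 3) : Prop := ∃ p : Ei, prm p ∧ x = w ^ u.1.val * p ∧ nq p = u.2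

theorem hcl_ew {p : ZMod 3 × Ei} (hp : prm p.2) (u : ZMod 3 × ZMod 3) :
    HCl (ew p) u ↔ cls p = u := by
  constructor
  · rintro ⟨p', h1, h2, h3⟩
    have h4 : ew p = ew (u.1, p') := h2
    have h5 := ew_inj hp (q := (u.1, p')) h1 h4
    rw [h5]
    exact Prod.ext rfl h3
  · intro h
    refine ⟨p.2, hp, ?_, ?_⟩
    · rw [← h]
      rfl
    · rw [← h]
      rfl

/-- the condition `Q` on the classes of a tuple -/
def CQ {m : ℕ} (Q : (Fin m → ZMod 3 × ZMod 3) → Prop) (a : Fin m → Ei) : Prop :=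
  ∃ u, (∀ k, HCl (a k) (u k)) ∧ Q u

theorem cq_ew {m : ℕ} {Q : (Fin m → ZMod 3 × ZMod 3) → Prop} {p : Fin m → ZMod 3 × Ei}
    (hp : ∀ k, prm (p k).2) : CQ Q (fun k => ew (p k)) ↔ Q fun k => cls (p k) := by
  constructor
  · rintro ⟨u, h1, h2⟩
    have : (fun k => cls (p k)) = u := funext fun k => (hcl_ew (hp k) (u k)).1 (h1 k)
    rw [this]
    exact h2
  · intro h
    exact ⟨_, fun k => (hcl_ew (hp k) _).2 rfl, h⟩

theorem cq_elw {m : ℕ} {Q : (Fin m → ZMod 3 × ZMod 3) → Prop} (i : Fin m → ZMod 3)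
    {M S : Fin m → Finset Ei} (hM : ∀ k, M k ⊆ S k) (hS : ∀ k, ∀ q ∈ S k, Pq q) :
    CQ Q (fun k => elw (i k) (M k) (S k)) ↔ Q fun k => (i k, nq (el (M k) (S k))) := by
  have h := cq_ew (Q := Q) (p := fun k => (i k, el (M k) (S k)))
    (fun k => el_prm (hS k) (hM k))
  exact h

theorem nq_mod {x y : Ei} (h : nr x % 9 = nr y % 9) : nq x = nq y := by
  unfold nq
  have h1 : ∃ k : ℤ, nr x = nr y + 9 * k := by
    have h2 : (9 : ℤ) ∣ nr x - nr y := Int.ModEq.dvd (Int.ModEq.symm h)
    obtain ⟨k, hk⟩ := h2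
    exact ⟨k, by linarith⟩
  obtain ⟨k, hk⟩ := h1
  rw [hk]
  have e : (nr y + 9 * k - 1) / 3 = (nr y - 1) / 3 + 3 * k := by
    have : nr y + 9 * k - 1 = (nr y - 1) + (3 * k) * 3 := by ring
    rw [this, Int.add_mul_ediv_right _ _ (by norm_num)]
  rw [e]
  push_cast
  have h3 : (3 : ZMod 3) = 0 := by decide
  rw [h3, zero_mul, add_zero]

theorem nrm_fprod (S : Finset Ei) : nrm (∏ π ∈ S, π) = ∏ π ∈ S, nrm π := by
  induction S using Finset.induction_on with
  | empty =>
    rw [prod_empty, prod_empty]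
    decide
  | insert a s ha ih => rw [prod_insert ha, prod_insert ha, nrm_mul, ih]

theorem nr_el_mod (M S : Finset Ei) :
    nr (el M S) = ((((∏ π ∈ S, nrm π) * ∏ π ∈ M, nrm π : ℕ)) : ℤ) := by
  unfold Pool.Agent.R419.KF.el
  rw [← nrm_fprod, ← nrm_fprod, ← nrm_mul, nrm_cast]

/-- the condition on the classes only depends on the key -/
theorem kyp_Q {m : ℕ} (Q : (Fin m → ZMod 3 × ZMod 3) → Prop) (i : Fin m → ZMod 3)
    (M : Fin m → Finset Ei) : KyP M fun S => CQ Q fun k => elw (i k) (M k) (S k) := by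
  intro z H hH hMz S S' hS hS' hM hM' hj hj' hk
  refine (cq_elw i hM hS).trans (Iff.trans ?_ (cq_elw i hM' hS').symm)
  have h : (fun k => (i k, nq (el (M k) (S k)))) = fun k => (i k, nq (el (M k) (S' k))) := by
    funext k
    refine Prod.ext rfl (nq_mod ?_)
    rw [nr_el_mod, nr_el_mod]
    have h1 := norm_key hj hj' hk k
    have h2 : ((∏ π ∈ S k, nrm π) * ∏ π ∈ M k, nrm π) % 9 =
        ((∏ π ∈ S' k, nrm π) * ∏ π ∈ M k, nrm π) % 9 := by
      rw [Nat.mul_mod, h1, ← Nat.mul_mod]
    exact_mod_cast h2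
  rw [h]

theorem kyp_and {m : ℕ} {M : Fin m → Finset Ei} {P P' : (Fin m → Finset Ei) → Prop} (h : KyP M P)
    (h' : KyP M P') : KyP M fun S => P S ∧ P' S := by
  intro z H hH hMz S S' hS hS' hM hM' hj hj' hk
  exact and_congr (h z H hH hMz S S' hS hS' hM hM' hj hj' hk)
    (h' z H hH hMz S S' hS hS' hM hM' hj hj' hk)

/-! ### the law -/

section
variable {m q Mt : ℕ} (n : Fin Mt → Fin (m + q) → ℕ) (pb : Fin q → ZMod 3 × Ei)
  (Q : (Fin m → ZMod 3 × ZMod 3) → Prop)

/-- the proportion of the classes -/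
noncomputable def kapQ (c : Fin q → ZMod 3 × ZMod 3) : ℝ :=
  ((univ.filter fun u : Fin m → ZMod 3 × ZMod 3 => Q u ∧ ∀ t,
    ∑ k, n t (Fin.castAdd q k) • u k + ∑ j, n t (Fin.natAdd m j) • c j ≠ 0).card : ℝ) / 9 ^ m

/-- the number of the tuples without exceptional `δ` in the classes given by `Q` -/
noncomputable def NQ (X : ℕ) : ℕ :=
  {a : Fin m → Ei | (∀ k, nr (a k) ≤ X ∧ FamU (a k)) ∧ (CQ Q a ∧
    ∀ t, NEc (dlt (n t) (Fin.append a fun j => ew (pb j))))}.ncard

theorem NQ_lim (hpb : ∀ j, ClP (pb j).2)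
    (hn : ∀ t, ∃ k : Fin m, (n t (Fin.castAdd q k) : ZMod 3) ≠ 0) :
    Tendsto (fun X : ℕ => (NQ n pb Q X : ℝ) / (AT m X : ℝ)) atTop
      (nhds (kapQ n Q fun j => cls (pb j))) := by
  obtain ⟨P, hP⟩ : ∃ P : (Fin m → ZMod 3 × ZMod 3) → Prop,
      ∀ u, P u ↔ (Q u ∧ ∀ t, ∑ k, n t (Fin.castAdd q k) • u k +
        ∑ j, n t (Fin.natAdd m j) • cls (pb j) ≠ 0) := ⟨_, fun _ => Iff.rfl⟩
  have hsum : ∀ (p : Fin m → ZMod 3 × Ei) (t : Fin Mt),
      ∑ k, n t k • cls (Fin.append p pb k) = ∑ k, n t (Fin.castAdd q k) • cls (p k) +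
        ∑ j, n t (Fin.natAdd m j) • cls (pb j) := by
    intro p t
    rw [Fin.sum_univ_add]
    simp only [Fin.append_left, Fin.append_right]
  have h1 : Tendsto (fun X : ℕ => (((PX m X).filter fun p => (Q fun k => cls (p k)) ∧ ∀ t,
      ∑ k, n t k • cls (Fin.append p pb k) ≠ 0).card : ℝ) / (AT m X : ℝ)) atTop
      (nhds (kapQ n Q fun j => cls (pb j))) := by
    have h := cls_lim (m := m) P
    have e1 : (kapQ n Q fun j => cls (pb j)) = ((univ.filter P).card : ℝ) / 9 ^ m := by
      unfold kapQ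
      congr 2
      exact fcc fun u _ => (hP u).symm
    rw [e1]
    refine h.congr fun X => ?_
    congr 2
    refine fcc fun p _ => ?_
    rw [hP]
    exact and_congr Iff.rfl (forall_congr' fun t => by rw [hsum])
  have h2 := uc_limF n pb hpb hn
  have h3 := h1.sub h2
  rw [sub_zero] at h3
  have hprm : ∀ {X : ℕ} {p : Fin m → ZMod 3 × Ei}, p ∈ PX m X → ∀ k, prm (p k).2 :=
    fun hp k => cf_prm (mem_product.1 (Fintype.mem_piFinset.1 hp k)).2
  have hcnt : ∀ X : ℕ, NQ n pb Q X = ((PX m X).filter fun p => (Q fun k => cls (p k)) ∧ ∀ t,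
      NEc (dlt (n t) fun k => ew (Fin.append p pb k))).card := by
    intro X
    unfold NQ
    rw [cnt_ew m X fun a => CQ Q a ∧ ∀ t, NEc (dlt (n t) (Fin.append a fun j => ew (pb j)))]
    refine fcc fun p hp => ?_
    refine and_congr (cq_ew (hprm hp)) (forall_congr' fun t => ?_)
    rw [append_ew]
  refine tendsto_of_tendsto_of_tendsto_of_le_of_le h3 h1 (fun X => ?_) fun X => ?_
  · show _ - _ ≤ _
    rw [← sub_div]
    refine div_le_div_of_nonneg_right ?_ (Nat.cast_nonneg _)
    rw [sub_le_iff_le_add, hcnt]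
    have h4 : ((PX m X).filter fun p => (Q fun k => cls (p k)) ∧ ∀ t,
        ∑ k, n t k • cls (Fin.append p pb k) ≠ 0) ⊆
        ((PX m X).filter fun p => (Q fun k => cls (p k)) ∧ ∀ t,
          NEc (dlt (n t) fun k => ew (Fin.append p pb k))) ∪
        ((PX m X).filter fun p => ∃ t, UC (dlt (n t) fun k => ew (Fin.append p pb k))) := by
      intro p hp
      obtain ⟨h5, h6, h6'⟩ := mem_filter.1 hp
      have h7 : ∀ k, prm (Fin.append p pb k).2 :=
        append_all (P := fun r : ZMod 3 × Ei => prm r.2) (hprm h5) fun j => (hpb j).1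
      by_cases h8 : ∃ t, UC (dlt (n t) fun k => ew (Fin.append p pb k))
      · exact mem_union_right _ (mem_filter.2 ⟨h5, h8⟩)
      · refine mem_union_left _ (mem_filter.2 ⟨h5, h6, fun t => (nec_cls (n t) h7).2 ⟨?_, h6' t⟩⟩)
        exact fun h9 => h8 ⟨t, h9⟩
    have h10 := Nat.cast_le (α := ℝ).2 ((card_le_card h4).trans (card_union_le _ _))
    rw [Nat.cast_add] at h10
    exact h10
  · refine div_le_div_of_nonneg_right ?_ (Nat.cast_nonneg _)
    rw [hcnt]
    have h4 : ((PX m X).filter fun p => (Q fun k => cls (p k)) ∧ ∀ t,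
        NEc (dlt (n t) fun k => ew (Fin.append p pb k))) ⊆
        ((PX m X).filter fun p => (Q fun k => cls (p k)) ∧ ∀ t,
          ∑ k, n t k • cls (Fin.append p pb k) ≠ 0) := by
      intro p hp
      obtain ⟨h5, h6, h6'⟩ := mem_filter.1 hp
      have h7 : ∀ k, prm (Fin.append p pb k).2 :=
        append_all (P := fun r : ZMod 3 × Ei => prm r.2) (hprm h5) fun j => (hpb j).1
      exact mem_filter.2 ⟨h5, h6, fun t => ((nec_cls (n t) h7).1 (h6' t)).2⟩
    exact Nat.cast_le.2 (card_le_card h4)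

/-- **The law for the tuples in the classes given by `Q`, with fixed factors.** -/
theorem lawQ {K : Type} [Field K] [NumberField K] (j : Ei ≃+* 𝓞 K) (hpb : ∀ l, ClP (pb l).2)
    (hn : ∀ t, ∃ k : Fin m, (n t (Fin.castAdd q k) : ZMod 3) ≠ 0)
    (hsep : ∀ t t', t ≠ t' → ∀ e : ℕ, (e = 1 ∨ e = 2) →
      (∀ k : Fin m, (n t (Fin.castAdd q k) : ZMod 3) + e * n t' (Fin.castAdd q k) = 0) →
      ¬ ∃ x, dlt (fun l => n t (Fin.natAdd m l) + e * n t' (Fin.natAdd m l))
        (fun l => ew (pb l)) = x ^ 3) :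
    Tendsto (fun X : ℕ => ({a : Fin m → Ei | (∀ k, nr (a k) ≤ X ∧ FamU (a k)) ∧
      ((CQ Q a ∧ ∀ t, NEc (dlt (n t) (Fin.append a fun l => ew (pb l)))) ∧
      ∀ t, Tri (j (dlt (n t) (Fin.append a fun l => ew (pb l)))))}.ncard : ℝ) / (AT m X : ℝ))
      atTop (nhds (kapQ n Q (fun l => cls (pb l)) * c9 ^ Mt)) := by
  have hg : (∏ _t : Fin Mt, gi * cf 0) = c9 ^ Mt := by
    rw [prod_const, card_univ, Fintype.card_fin, c_val]
  have hgb := c_bounds (M := Mt) (fun _ => 0)
  rw [hg] at hgb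
  obtain ⟨c, X₀, hc, hlow⟩ := AT_low (m := m)
  -- the sets of the fixed elements
  have hexb : ∃ Mb Sb : Fin q → Finset Ei, ∀ l, (∀ π ∈ Sb l, Pq π) ∧ Mb l ⊆ Sb l ∧
      (pb l).2 = el (Mb l) (Sb l) := by
    choose Mb Sb hMS using fun l => ex_pair (hpb l).1
      ⟨prm_ne_zero (hpb l).1, fun x hx => (hpb l).2 x hx⟩
    exact ⟨Mb, Sb, hMS⟩
  obtain ⟨Mb, Sb, hMS⟩ := hexb
  have hSb : ∀ l, ∀ u ∈ Sb l, Pq u := fun l => (hMS l).1
  have hMb : ∀ l, Mb l ⊆ Sb l := fun l => (hMS l).2.1
  obtain ⟨ib, hib⟩ : ∃ ib : Fin q → ZMod 3, ib = fun l => (pb l).1 := ⟨_, rfl⟩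
  have hb : (fun l => ew (pb l)) = fun l => elw (ib l) (Mb l) (Sb l) := by
    funext l
    unfold ew elw
    rw [(hMS l).2.2, hib]
  -- the errors
  have hlim : Tendsto (fun X : ℕ => ({a : Fin m → Ei | (∀ k, nr (a k) ≤ X ∧ FamU (a k)) ∧
      ((CQ Q a ∧ ∀ t, NEc (dlt (n t) (Fin.append a fun l => ew (pb l)))) ∧
      ∀ t, Tri (j (dlt (n t) (Fin.append a fun l => ew (pb l)))))}.ncard : ℝ) / (AT m X : ℝ) -
      c9 ^ Mt * ((NQ n pb Q X : ℝ) / (AT m X : ℝ))) atTop (nhds 0) := by
    rcases Nat.eq_zero_or_pos Mt with h0 | h0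
    · subst h0
      have : ∀ X : ℕ, ({a : Fin m → Ei | (∀ k, nr (a k) ≤ X ∧ FamU (a k)) ∧
          ((CQ Q a ∧ ∀ t, NEc (dlt (n t) (Fin.append a fun l => ew (pb l)))) ∧
          ∀ t, Tri (j (dlt (n t) (Fin.append a fun l => ew (pb l)))))}.ncard : ℝ) =
          NQ n pb Q X := by
        intro X
        unfold NQ
        congr 2
        ext a
        simp
      simp only [this, pow_zero, one_mul, sub_self]
      exact tendsto_const_nhds
    · have hm1 : 1 ≤ m := by
        obtain ⟨k, -⟩ := hn ⟨0, h0⟩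
        have := k.2
        omega
      -- the leading indices
      have hex : ∀ t, ∃ l : Fin m, (n t (Fin.castAdd q l) : ZMod 3) ≠ 0 ∧
          ∀ k, k < l → (n t (Fin.castAdd q k) : ZMod 3) = 0 := by
        intro t
        have hne : (univ.filter fun k : Fin m => (n t (Fin.castAdd q k) : ZMod 3) ≠ 0).Nonempty := by
          obtain ⟨k, hk⟩ := hn t
          exact ⟨k, mem_filter.2 ⟨mem_univ _, hk⟩⟩
        refine ⟨(univ.filter fun k : Fin m => (n t (Fin.castAdd q k) : ZMod 3) ≠ 0).min' hne,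
          (mem_filter.1 (min'_mem _ hne)).2, fun k hk => ?_⟩
        by_contra h
        exact absurd hk (not_lt.2 (min'_le _ k (mem_filter.2 ⟨mem_univ _, h⟩)))
      choose ld hld hld0 using hex
      have hsep' : ∀ i : Fin m → ZMod 3, ∀ t t', t ≠ t' → ld t = ld t' →
          (∃ k, (n t (Fin.castAdd q k) : ZMod 3) * (n t (Fin.castAdd q (ld t)) : ZMod 3) ≠
            (n t' (Fin.castAdd q k) : ZMod 3) * (n t' (Fin.castAdd q (ld t')) : ZMod 3)) ∨
          (∃ u ∈ Tt Sb, ee Mb (fun l => (n t (Fin.natAdd m l) : ZMod 3)) Sb u *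
              (n t (Fin.castAdd q (ld t)) : ZMod 3) ≠
            ee Mb (fun l => (n t' (Fin.natAdd m l) : ZMod 3)) Sb u *
              (n t' (Fin.castAdd q (ld t')) : ZMod 3)) ∨
          (∑ k, (n t k : ZMod 3) * Fin.append i ib k) * (n t (Fin.castAdd q (ld t)) : ZMod 3) ≠
            (∑ k, (n t' k : ZMod 3) * Fin.append i ib k) *
              (n t' (Fin.castAdd q (ld t')) : ZMod 3) := by
        intro i t t' htt hl
        by_contra hall
        rw [not_or, not_or] at hall
        obtain ⟨hk, hu, hy⟩ := hall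
        push Not at hk hu hy
        have ha := hld t
        have hb' := hld t'
        obtain ⟨x, hx⟩ : ∃ x : ZMod 3, x = (n t (Fin.castAdd q (ld t)) : ZMod 3) := ⟨_, rfl⟩
        obtain ⟨x', hx'⟩ : ∃ x : ZMod 3, x = (n t' (Fin.castAdd q (ld t')) : ZMod 3) := ⟨_, rfl⟩
        rw [← hx] at ha hk hu hy
        rw [← hx'] at hb' hk hu hy
        have hx2 : x * x = 1 := by
          have : ∀ x : ZMod 3, x ≠ 0 → x * x = 1 := by decide
          exact this x ha
        -- the sign
        obtain ⟨e, he, hex⟩ : ∃ e : ℕ, (e = 1 ∨ e = 2) ∧ (e : ZMod 3) = -(x * x') := by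
          have : ∀ x x' : ZMod 3, x ≠ 0 → x' ≠ 0 → -(x * x') = 1 ∨ -(x * x') = 2 := by decide
          rcases this x x' ha hb' with h | h
          · exact ⟨1, Or.inl rfl, by rw [h]; norm_num⟩
          · exact ⟨2, Or.inr rfl, by rw [h]; norm_num⟩
        have hlin : ∀ A B : ZMod 3, A * x = B * x' → A + e * B = 0 := by
          intro A B h
          rw [hex]
          linear_combination (-A) * hx2 + x * h
        refine hsep t t' htt e he (fun k => hlin _ _ (hk k)) ?_
        rw [hb]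
        refine cube_of hMb hSb ?_ ?_
        · intro u
          by_cases huT : u ∈ Tt Sb
          · have h1 := hlin _ _ (hu u huT)
            unfold eT
            rw [← h1]
            unfold ee
            rw [mul_sum, ← sum_add_distrib]
            refine sum_congr rfl fun l _ => ?_
            push_cast
            ring
          · unfold eT ee
            refine Finset.sum_eq_zero fun k _ => ?_
            rw [if_neg (fun h => huT (mem_Tt.2 ⟨k, h⟩)), mul_zero]
        · have h1 := hlin _ _ hy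
          have h2 : ∑ k : Fin m, (n t (Fin.castAdd q k) : ZMod 3) * i k +
              e * ∑ k : Fin m, (n t' (Fin.castAdd q k) : ZMod 3) * i k = 0 := by
            rw [mul_sum, ← sum_add_distrib]
            refine sum_eq_zero fun k _ => ?_
            have h3 := hlin _ _ (hk k)
            linear_combination (i k) * h3
          rw [Fin.sum_univ_add, Fin.sum_univ_add] at h1
          simp only [Fin.append_left, Fin.append_right] at h1
          have h3 : ∑ l, ((n t (Fin.natAdd m l) + e * n t' (Fin.natAdd m l) : ℕ) : ZMod 3) * ib l =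
              ∑ l, (n t (Fin.natAdd m l) : ZMod 3) * ib l +
                e * ∑ l, (n t' (Fin.natAdd m l) : ZMod 3) * ib l := by
            rw [mul_sum, ← sum_add_distrib]
            refine sum_congr rfl fun l _ => ?_
            push_cast
            ring
          rw [h3]
          linear_combination h1 - h2
      rw [Metric.tendsto_nhds]
      intro ε hε
      obtain ⟨z₀, hz₀⟩ : ∃ z₀ : ℕ, ∀ l, ∀ u ∈ Sb l, nrm u ≤ z₀ :=
        ⟨univ.sup fun l => (Sb l).sup nrm, fun l u hu => (Finset.le_sup (f := nrm) hu).trans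
          (Finset.le_sup (f := fun l => (Sb l).sup nrm) (mem_univ l))⟩
      have herr : ∀ i : Fin m → ZMod 3, ∀ᶠ X : ℕ in atTop,
          |(CT (fun M S => ((CQ Q fun k => elw (i k) (M k) (S k)) ∧ ∀ t, NEc (dlt (n t) fun k =>
            elw (Fin.append i ib k) (Fin.append M Mb k) (Fin.append S Sb k))) ∧
            GT (Fin.append M Mb) (fun t k => (n t k : ZMod 3))
              (fun t => ∑ k, (n t k : ZMod 3) * Fin.append i ib k)
              (fun _ => 0) (Fin.append S Sb)) X : ℝ) -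
            c9 ^ Mt * (CT (fun M S => (CQ Q fun k => elw (i k) (M k) (S k)) ∧
            ∀ t, NEc (dlt (n t) fun k => elw (Fin.append i ib k)
            (Fin.append M Mb k) (Fin.append S Sb k))) X : ℝ)| ≤
          (c * ε / (2 * 3 ^ m)) * (X : ℝ) ^ m := by
        intro i
        have h := errN Pool.Agent.Y363.XK.t_BIL hm1 (Tt Sb)
          (fun M S => GT (Fin.append M Mb) (fun t k => (n t k : ZMod 3))
              (fun t => ∑ k, (n t k : ZMod 3) * Fin.append i ib k)
              (fun _ => 0) (Fin.append S Sb)) (c9 ^ Mt) hgb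
          (fun M hMq η hη => by
            obtain ⟨R, hR⟩ := t_BXF Pool.Agent.Y710.XK.t_EQ (fun t k => (n t k : ZMod 3)) ld hld
              hld0 Mb Sb hMb hSb (fun t => ∑ k, (n t k : ZMod 3) * Fin.append i ib k) (hsep' i)
              (fun _ => 0) η hη
            have h1 := hR M
            rw [hg] at h1
            exact ⟨R + 4 * (Tt Sb).card, NdS R, h1, badF m R (Tt Sb) (tt_pq hSb)⟩)
          z₀ (fun M S => (CQ Q fun k => elw (i k) (M k) (S k)) ∧ ∀ t, NEc (dlt (n t) fun k =>
            elw (Fin.append i ib k) (Fin.append M Mb k) (Fin.append S Sb k)))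
          (fun M => by
            have h1 := kyw_of_kyp (P := fun S => ∀ t, NEc (dlt (n t) fun k =>
              elw (Fin.append i ib k) (Fin.append M Mb k) (S k)))
              (kyp_nec' n (Fin.append i ib) (Fin.append M Mb)) hz₀ hMb hSb
            have h2 := kyp_Q Q i M
            intro z H hz hH hMz S S' hS hS' hM hM' hj hj' hk
            exact and_congr (h2 z H hH hMz S S' hS hS' hM hM' hj hj' hk)
              (h1 z H hz hH hMz S S' hS hS' hM hM' hj hj' hk))
          (c * ε / (2 * 3 ^ m)) (by positivity)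
        exact h
      filter_upwards [eventually_all.2 herr, eventually_ge_atTop (max X₀ 1)] with X hX hX0
      have hlo := hlow X ((le_max_left _ _).trans hX0)
      have hX1 : (0 : ℝ) < X := by exact_mod_cast (le_max_right _ _).trans hX0
      have hN : (0 : ℝ) < AT m X := lt_of_lt_of_le (by positivity) hlo
      have e1 : {a : Fin m → Ei | (∀ k, nr (a k) ≤ X ∧ FamU (a k)) ∧
          ((CQ Q a ∧ ∀ t, NEc (dlt (n t) (Fin.append a fun l => ew (pb l)))) ∧
          ∀ t, Tri (j (dlt (n t) (Fin.append a fun l => ew (pb l)))))}.ncard =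
          ∑ i : Fin m → ZMod 3,
            CT (fun M S => ((CQ Q fun k => elw (i k) (M k) (S k)) ∧ ∀ t, NEc (dlt (n t) fun k =>
            elw (Fin.append i ib k) (Fin.append M Mb k) (Fin.append S Sb k))) ∧
            GT (Fin.append M Mb) (fun t k => (n t k : ZMod 3))
              (fun t => ∑ k, (n t k : ZMod 3) * Fin.append i ib k)
              (fun _ => 0) (Fin.append S Sb)) X := by
        rw [cnt_eq m X fun a => (CQ Q a ∧ ∀ t, NEc (dlt (n t) (Fin.append a fun l => ew (pb l)))) ∧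
          ∀ t, Tri (j (dlt (n t) (Fin.append a fun l => ew (pb l))))]
        refine Finset.sum_congr rfl fun i _ => ?_
        refine CT_congr fun M S hS => ?_
        rw [mem_TP] at hS
        rw [hb, append_elw]
        refine and_congr_right fun hne => ?_
        exact (gt_iff j n (Fin.append i ib) (append_sub (fun k => (hS k).2.2) hMb)
          (append_all (P := fun s : Finset Ei => ∀ u ∈ s, Pq u) (fun k => (hS k).1) hSb)
          hne.2).symm
      have e2 : NQ n pb Q X = ∑ i : Fin m → ZMod 3,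
          CT (fun M S => (CQ Q fun k => elw (i k) (M k) (S k)) ∧ ∀ t, NEc (dlt (n t) fun k =>
            elw (Fin.append i ib k) (Fin.append M Mb k) (Fin.append S Sb k))) X := by
        unfold NQ
        rw [cnt_eq m X fun a => CQ Q a ∧ ∀ t, NEc (dlt (n t) (Fin.append a fun l => ew (pb l)))]
        refine Finset.sum_congr rfl fun i _ => ?_
        refine CT_congr fun M S hS => ?_
        rw [hb, append_elw]
      rw [Real.dist_eq, sub_zero]
      have e3 : ({a : Fin m → Ei | (∀ k, nr (a k) ≤ X ∧ FamU (a k)) ∧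
          ((CQ Q a ∧ ∀ t, NEc (dlt (n t) (Fin.append a fun l => ew (pb l)))) ∧
          ∀ t, Tri (j (dlt (n t) (Fin.append a fun l => ew (pb l)))))}.ncard : ℝ) /
            (AT m X : ℝ) - c9 ^ Mt * ((NQ n pb Q X : ℝ) / (AT m X : ℝ)) =
          (({a : Fin m → Ei | (∀ k, nr (a k) ≤ X ∧ FamU (a k)) ∧
          ((CQ Q a ∧ ∀ t, NEc (dlt (n t) (Fin.append a fun l => ew (pb l)))) ∧
          ∀ t, Tri (j (dlt (n t) (Fin.append a fun l => ew (pb l)))))}.ncard : ℝ) -
            c9 ^ Mt * (NQ n pb Q X : ℝ)) / (AT m X : ℝ) := by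
        field_simp
      rw [e3, abs_div, abs_of_pos hN, div_lt_iff₀ hN, e1, e2]
      push_cast
      rw [Finset.mul_sum, ← Finset.sum_sub_distrib]
      refine lt_of_le_of_lt ((Finset.abs_sum_le_sum_abs _ _).trans
        (Finset.sum_le_sum fun i _ => hX i)) ?_
      rw [Finset.sum_const, Finset.card_univ, Fintype.card_fun, ZMod.card, Fintype.card_fin,
        nsmul_eq_mul]
      push_cast
      have e4 : (3 : ℝ) ^ m * (c * ε / (2 * 3 ^ m) * (X : ℝ) ^ m) =
          ε / 2 * (c * (X : ℝ) ^ m) := by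
        field_simp
      rw [e4]
      calc ε / 2 * (c * (X : ℝ) ^ m) ≤ ε / 2 * (AT m X : ℝ) := by gcongr
        _ < ε * (AT m X : ℝ) := by
          apply mul_lt_mul_of_pos_right _ hN
          linarith
  have h1 := hlim.add ((NQ_lim n pb Q hpb hn).const_mul (c9 ^ Mt))
  rw [zero_add, mul_comm (c9 ^ Mt)] at h1
  refine h1.congr fun X => ?_
  ring

end

end Run7.h460.JL
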