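import Pool.Agent.Run7.h460.JL.LawQ
import Pool.Agent.Run7.h460.JL.Dens

/-!
# The joint law for monomials with coefficients in a class modulo nine
-/

set_option autoImplicit false
set_option linter.unusedVariables false
set_option linter.unusedSectionVars false

open scoped Classical

namespace Run7.h460.JL

open Finset Filter
open NumberField
open Pool.Agent.Y692.QS (Ei w nr)
open Pool.Agent.Y715.T.RecG (Pq)
open Pool.Agent.Y699.E (nrm prm prm_ne_zero prm_mul prm_one)
open Pool.Agent.Y703.XK (c9)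
open Pool.Agent.Y696.CTK (Tri)
open Pool.Agent.N883.FF (nq ClP w_pow_inj isUnit_w nr_w_mul)
open Pool.Agent.N883.FF.Den3 (CF)
open Pool.Agent.XLK (fcc)
open Run7.h707.TC (dlt UC NEc FamU)
open Run7.h707.TD
open Run7.h707.TF

section
variable {m q : ℕ} (e : Fin q → Fin m → ℕ)

/-- the exponents of a monomial with its coefficient -/
def nnq (t : Fin q) : Fin (m + q) → ℕ := Fin.append (e t) (Pi.single t 1)

theorem nn_left (t : Fin q) (k : Fin m) : nnq e t (Fin.castAdd q k) = e t k :=
  Fin.append_left _ _ _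

theorem nn_right (t l : Fin q) : nnq e t (Fin.natAdd m l) = (Pi.single t 1 : Fin q → ℕ) l :=
  Fin.append_right _ _ _

theorem prod_single_pow {β : Type*} [CommMonoid β] (b : Fin q → β) (t : Fin q) :
    ∏ l, b l ^ ((Pi.single t 1 : Fin q → ℕ) l) = b t := by
  rw [Finset.prod_eq_single t]
  · rw [Pi.single_eq_same, pow_one]
  · intro l _ hl
    rw [Pi.single_eq_of_ne hl, pow_zero]
  · intro h
    exact absurd (mem_univ _) h

theorem sum_single_smul {β : Type*} [AddCommMonoid β] (b : Fin q → β) (t : Fin q) :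
    ∑ l, ((Pi.single t 1 : Fin q → ℕ) l) • b l = b t := by
  rw [Finset.sum_eq_single t]
  · rw [Pi.single_eq_same, one_nsmul]
  · intro l _ hl
    rw [Pi.single_eq_of_ne hl, zero_nsmul]
  · intro h
    exact absurd (mem_univ _) h

theorem dlt_nn (t : Fin q) (a : Fin m → Ei) (b : Fin q → Ei) :
    dlt (nnq e t) (Fin.append a b) = dlt (e t) a * b t := by
  unfold Run7.h707.TC.dlt
  rw [Fin.prod_univ_add]
  simp only [nn_left, nn_right, Fin.append_left, Fin.append_right]
  rw [prod_single_pow]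

theorem cls_nn (t : Fin q) (p : Fin m → ZMod 3 × Ei) (pb : Fin q → ZMod 3 × Ei) :
    ∑ k, nnq e t k • cls (Fin.append p pb k) = ∑ k, e t k • cls (p k) + cls (pb t) := by
  rw [Fin.sum_univ_add]
  simp only [nn_left, nn_right, Fin.append_left, Fin.append_right]
  rw [sum_single_smul (fun l => cls (pb l)) t]

theorem dlt_pair (t t' : Fin q) (f : ℕ) (b : Fin q → Ei) :
    dlt (fun l => nnq e t (Fin.natAdd m l) + f * nnq e t' (Fin.natAdd m l)) b = b t * b t' ^ f := by
  unfold Run7.h707.TC.dlt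
  simp only [nn_right, pow_add, mul_comm f, pow_mul]
  rw [prod_mul_distrib, prod_single_pow, Finset.prod_pow, prod_single_pow]

/-- the tuples of norm at most `X` -/
def SA (m : ℕ) (X : ℕ) : Set (Fin m → Ei) := {a | ∀ k, nr (a k) ≤ X ∧ FamU (a k)}

/-- their number -/
noncomputable def NA (m : ℕ) (X : ℕ) : ℝ := (AT m X : ℝ)

theorem NA_nonneg (m X : ℕ) : 0 ≤ NA m X := Nat.cast_nonneg _

theorem SA_fin (m X : ℕ) : (SA m X).Finite := by
  have h : SA m X ⊆ (fun (p : Fin m → ZMod 3 × Ei) => fun k => ew (p k)) ''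
      ((PX m X : Finset (Fin m → ZMod 3 × Ei)) : Set (Fin m → ZMod 3 × Ei)) := by
    intro a ha
    choose p hp hpa using fun k => famU_ew.1 (ha k)
    exact ⟨p, Fintype.mem_piFinset.2 hp, funext hpa⟩
  exact ((PX m X).finite_toSet.image _).subset h

/-- an element of the family in terms of a pair -/
theorem ex_ew {m X : ℕ} {a : Fin m → Ei} (ha : a ∈ SA m X) :
    ∃ p : Fin m → ZMod 3 × Ei, (∀ k, prm (p k).2) ∧ a = fun k => ew (p k) := by
  choose p hp hpa using fun k => famU_ew.1 (ha k)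
  exact ⟨p, fun k => cf_prm (mem_product.1 (hp k)).2, (funext hpa).symm⟩

theorem append_ew' (p : Fin m → ZMod 3 × Ei) (pb : Fin q → ZMod 3 × Ei) :
    Fin.append (fun k => ew (p k)) (fun j => ew (pb j)) = fun k => ew (Fin.append p pb k) :=
  append_ew p pb

section law
variable {K : Type} [Field K] [NumberField K] (j : Ei ≃+* 𝓞 K) {pb : Fin q → ZMod 3 × Ei}
  (hpb : ∀ l, ClP (pb l).2) (he : ∀ t, ∃ k, (e t k : ZMod 3) ≠ 0)

include hpb he in
/-- few tuples have a monomial that is a unit times a cube -/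
theorem uc_zero : DL (SA m) (NA m) (fun a => ∃ t, UC (dlt (e t) a * ew (pb t))) 0 := by
  have h := uc_limF (nnq e) pb hpb (fun t => by
    obtain ⟨k, hk⟩ := he t
    exact ⟨k, by rw [nn_left]; exact hk⟩)
  unfold DL
  refine h.congr fun X => ?_
  have h1 := cnt_ew m X fun a => ∃ t, UC (dlt (nnq e t) (Fin.append a fun l => ew (pb l)))
  have h2 : {a | a ∈ SA m X ∧ ∃ t, UC (dlt (e t) a * ew (pb t))} =
      {a : Fin m → Ei | (∀ k, nr (a k) ≤ X ∧ FamU (a k)) ∧
        ∃ t, UC (dlt (nnq e t) (Fin.append a fun l => ew (pb l)))} := by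
    ext a
    simp only [dlt_nn]
    rfl
  rw [h2, h1]
  unfold NA
  congr 2
  refine fcc fun p _ => ?_
  rw [append_ew']

variable (hsep : ∀ t t', t ≠ t' → ∀ f : ℕ, (f = 1 ∨ f = 2) →
  (∀ k, (e t k : ZMod 3) + f * e t' k = 0) → ¬ ∃ x : Ei, ew (pb t) * ew (pb t') ^ f = x ^ 3)
  {u : Fin m → ZMod 3 × ZMod 3} (hu : ∀ t, ∑ k, e t k • u k + cls (pb t) ≠ 0)

include hpb hu in
/-- in the class, a monomial is not exceptional unless it is a unit times a cube -/
theorem nec_of {X : ℕ} {a : Fin m → Ei} (ha : a ∈ SA m X) (hc : CQ (fun u' => u' = u) a)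
    (t : Fin q) (h : ¬ UC (dlt (e t) a * ew (pb t))) : NEc (dlt (e t) a * ew (pb t)) := by
  obtain ⟨p, hp, rfl⟩ := ex_ew ha
  have h1 : (fun k => cls (p k)) = u := (cq_ew hp).1 hc
  have h2 : ∀ k, prm (Fin.append p pb k).2 :=
    append_all (P := fun r : ZMod 3 × Ei => prm r.2) hp fun l => (hpb l).1
  have h3 := nec_cls (nnq e t) h2
  rw [← append_ew', dlt_nn, cls_nn] at h3
  refine h3.2 ⟨h, ?_⟩
  have h4 : ∑ k, e t k • cls (p k) = ∑ k, e t k • u k :=
    sum_congr rfl fun k _ => by rw [← congrFun h1 k]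
  rw [h4]
  exact hu t

include hpb he hsep hu in
/-- **The law for a set of monomials in one class.** -/
theorem law_T (T : Finset (Fin q)) :
    DL (SA m) (NA m) (fun a => CQ (fun u' => u' = u) a ∧
      ∀ t ∈ T, Tri (j (dlt (e t) a * ew (pb t)))) (1 / 9 ^ m * c9 ^ T.card) := by
  set eT := T.equivFin.symm with heT
  have h := lawQ (fun s : Fin T.card => nnq e (eT s)) pb (fun u' => u' = u) j hpb
    (fun s => by
      obtain ⟨k, hk⟩ := he (eT s)
      exact ⟨k, by rw [nn_left]; exact hk⟩)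
    (fun s s' hss f hf hk => by
      rw [dlt_pair]
      refine hsep _ _ (fun h => hss (eT.injective (Subtype.ext h))) f hf fun k => ?_
      have := hk k
      rw [nn_left, nn_left] at this
      exact this)
  have hk : kapQ (fun s : Fin T.card => nnq e (eT s)) (fun u' => u' = u)
      (fun l => cls (pb l)) = 1 / 9 ^ m := by
    unfold kapQ
    beta_reduce
    congr 1
    have : (univ.filter fun u' : Fin m → ZMod 3 × ZMod 3 => u' = u ∧ ∀ s : Fin T.card,
        ∑ k, nnq e (eT s) (Fin.castAdd q k) • u' k +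
          ∑ l, nnq e (eT s) (Fin.natAdd m l) • cls (pb l) ≠ 0) = {u} := by
      ext u'
      rw [mem_filter, mem_singleton]
      constructor
      · rintro ⟨-, h1, -⟩
        exact h1
      · rintro rfl
        refine ⟨mem_univ _, rfl, fun s => ?_⟩
        simp only [nn_left, nn_right]
        rw [sum_single_smul (fun l => cls (pb l))]
        exact hu _
    have h2 := congrArg (fun F : Finset (Fin m → ZMod 3 × ZMod 3) => (F.card : ℝ)) this
    beta_reduce at h2
    rw [card_singleton, Nat.cast_one] at h2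
    exact (congrArg Nat.cast (fcc fun _ _ => Iff.rfl)).trans h2
  rw [hk] at h
  have h1 : DL (SA m) (NA m) (fun a => (CQ (fun u' => u' = u) a ∧
      ∀ s : Fin T.card, NEc (dlt (nnq e (eT s)) (Fin.append a fun l => ew (pb l)))) ∧
      ∀ s : Fin T.card, Tri (j (dlt (nnq e (eT s)) (Fin.append a fun l => ew (pb l)))))
      (1 / 9 ^ m * c9 ^ T.card) := h
  refine h1.of_zero (SA_fin m) (NA_nonneg m) (uc_zero e hpb he) fun X a ha hz => ?_
  push Not at hz
  simp only [dlt_nn]
  constructor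
  · rintro ⟨⟨h2, -⟩, h3⟩
    refine ⟨h2, fun t ht => ?_⟩
    have h4 := h3 (eT.symm ⟨t, ht⟩)
    rw [Equiv.apply_symm_apply] at h4
    exact h4
  · rintro ⟨h2, h3⟩
    exact ⟨⟨h2, fun s => nec_of e hpb hu ha h2 _ (hz _)⟩, fun s => h3 _ (eT s).2⟩

include hpb he hsep hu in
/-- **The law of the patterns in one class.** -/
theorem law_pat (T : Finset (Fin q)) :
    DL (SA m) (NA m) (fun a => CQ (fun u' => u' = u) a ∧
      ∀ t, (Tri (j (dlt (e t) a * ew (pb t))) ↔ t ∈ T))
      (1 / 9 ^ m * (c9 ^ T.card * (1 - c9) ^ (q - T.card))) := by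
  have h := DL.pattern (ι := Fin q) (SA_fin m) (fun T => law_T e j hpb he hsep hu T) T
  rw [Fintype.card_fin] at h
  exact h

end law

end

end Run7.h460.JL
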